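import Pool.Agent.Q173.MU.Main

/-!
# Matrices over an algebra acting on the powers of a module

For a matrix `A` over an `O`-algebra `R` and an `R`-module `M` let `cok A M` be the cokernel of `A` on the powers of `M`.
The length of `cok A M` is additive in short exact sequences of lattices, if `A` is a square matrix.
-/

set_option autoImplicit false
set_option maxHeartbeats 4000000
set_option synthInstance.maxHeartbeats 400000

namespace Pool.Agent.Q50.MU

open Module Matrix

section act

variable {O : Type} [CommRing O] {R : Type} [Ring R] [Algebra O R] {b c : ℕ}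

/-- The map `y ↦ A y` on the powers of the module `M`. -/
noncomputable def act (A : Matrix (Fin b) (Fin c) R) (M : Type) [AddCommGroup M] [Module O M] [Module R M]
    [IsScalarTower O R M] : (Fin c → M) →ₗ[O] (Fin b → M) where
  toFun y i := ∑ j, A i j • y j
  map_add' y z := by
    funext i
    simp only [Pi.add_apply, smul_add, Finset.sum_add_distrib]
  map_smul' o y := by
    funext i
    simp only [Pi.smul_apply, RingHom.id_apply, Finset.smul_sum]
    exact Finset.sum_congr rfl fun j _ => smul_comm _ _ _

/-- The cokernel. -/
abbrev cok (O : Type) [CommRing O] {R : Type} [Ring R] [Algebra O R] {b c : ℕ} (A : Matrix (Fin b) (Fin c) R)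
    (M : Type) [AddCommGroup M] [Module O M] [Module R M] [IsScalarTower O R M] : Type :=
  (Fin b → M) ⧸ LinearMap.range (act (O := O) A M)

variable {M M' M'' : Type} [AddCommGroup M] [Module O M] [Module R M] [IsScalarTower O R M]
  [AddCommGroup M'] [Module O M'] [Module R M'] [IsScalarTower O R M']
  [AddCommGroup M''] [Module O M''] [Module R M''] [IsScalarTower O R M'']

lemma act_apply (A : Matrix (Fin b) (Fin c) R) (y : Fin c → M) (i : Fin b) :
    act (O := O) A M y i = ∑ j, A i j • y j := rfl

/-- The map on the powers. -/
noncomputable def powMap (O : Type) [CommRing O] {R : Type} [Ring R] [Algebra O R] {M M' : Type} [AddCommGroup M]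
    [Module O M] [Module R M] [IsScalarTower O R M] [AddCommGroup M'] [Module O M'] [Module R M'] [IsScalarTower O R M']
    (f : M →ₗ[R] M') (b : ℕ) : (Fin b → M) →ₗ[O] (Fin b → M') :=
  (f.restrictScalars O).compLeft (Fin b)

lemma powMap_apply (f : M →ₗ[R] M') (x : Fin b → M) (i : Fin b) : powMap O f b x i = f (x i) := rfl

lemma powMap_act (f : M →ₗ[R] M') (A : Matrix (Fin b) (Fin c) R) (y : Fin c → M) :
    powMap O f b (act (O := O) A M y) = act (O := O) A M' (powMap O f c y) := by
  funext i
  rw [powMap_apply, act_apply, act_apply, map_sum]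
  exact Finset.sum_congr rfl fun j _ => by rw [map_smul, powMap_apply]

lemma powMap_injective (f : M →ₗ[R] M') (hf : Function.Injective f) : Function.Injective (powMap O f b) := by
  intro x y h
  funext i
  exact hf (congrFun h i)

lemma powMap_surjective (f : M →ₗ[R] M') (hf : Function.Surjective f) : Function.Surjective (powMap O f b) := by
  intro x
  choose g hg using hf
  refine ⟨fun i => g (x i), ?_⟩
  funext i
  exact hg (x i)

lemma powMap_range_le (f : M →ₗ[R] M') (A : Matrix (Fin b) (Fin c) R) :
    LinearMap.range (act (O := O) A M) ≤ (LinearMap.range (act (O := O) A M')).comap (powMap O f b) := by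
  rintro _ ⟨y, rfl⟩
  exact ⟨powMap O f c y, (powMap_act f A y).symm⟩

/-- The map on the cokernels. -/
noncomputable def cokMap (O : Type) [CommRing O] {R : Type} [Ring R] [Algebra O R] {b c : ℕ} {M M' : Type}
    [AddCommGroup M] [Module O M] [Module R M] [IsScalarTower O R M] [AddCommGroup M'] [Module O M'] [Module R M']
    [IsScalarTower O R M'] (A : Matrix (Fin b) (Fin c) R) (f : M →ₗ[R] M') : cok O A M →ₗ[O] cok O A M' :=
  Submodule.mapQ _ _ (powMap O f b) (powMap_range_le f A)

lemma cokMap_surjective (A : Matrix (Fin b) (Fin c) R) (f : M →ₗ[R] M') (hf : Function.Surjective f) :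
    Function.Surjective (cokMap O A f) := by
  intro y
  obtain ⟨y, rfl⟩ := Submodule.Quotient.mk_surjective _ y
  obtain ⟨x, rfl⟩ := powMap_surjective (O := O) f hf y
  exact ⟨Submodule.Quotient.mk x, rfl⟩

/-- **Additivity.** -/
lemma length_cok (A : Matrix (Fin b) (Fin c) R) (f : M' →ₗ[R] M) (g : M →ₗ[R] M'') (hf : Function.Injective f)
    (hg : Function.Surjective g) (hfg : Function.Exact f g) (hA : Function.Injective (act (O := O) A M'')) :
    Module.length O (cok O A M) = Module.length O (cok O A M') + Module.length O (cok O A M'') := by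
  refine Module.length_eq_add_of_exact (cokMap O A f) (cokMap O A g) ?_ (cokMap_surjective A g hg) ?_
  · rw [← LinearMap.ker_eq_bot, LinearMap.ker_eq_bot']
    intro x hx
    obtain ⟨x, rfl⟩ := Submodule.Quotient.mk_surjective _ x
    have h1 : powMap O f b x ∈ LinearMap.range (act (O := O) A M) := (Submodule.Quotient.mk_eq_zero _).1 hx
    obtain ⟨y, hy⟩ := h1
    have h2 : act (O := O) A M'' (powMap O g c y) = 0 := by
      rw [← powMap_act, hy]
      funext i
      exact hfg.apply_apply_eq_zero (x i)
    have h3 : powMap O g c y = 0 := hA (by rw [h2, map_zero])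
    have h4 : ∀ j, ∃ z, f z = y j := fun j => (hfg (y j)).1 (congrFun h3 j)
    choose z hz using h4
    have h5 : powMap O f c z = y := funext hz
    have h6 : act (O := O) A M' z = x := by
      apply powMap_injective (O := O) f hf
      rw [powMap_act, h5, hy]
    exact (Submodule.Quotient.mk_eq_zero _).2 ⟨z, h6⟩
  · intro x
    obtain ⟨x, rfl⟩ := Submodule.Quotient.mk_surjective _ x
    constructor
    · intro hx
      have h1 : powMap O g b x ∈ LinearMap.range (act (O := O) A M'') := (Submodule.Quotient.mk_eq_zero _).1 hx
      obtain ⟨z, hz⟩ := h1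
      obtain ⟨y, rfl⟩ := powMap_surjective (O := O) g hg z
      have h2 : ∀ i, ∃ w, f w = (x - act (O := O) A M y) i := by
        intro i
        refine (hfg _).1 ?_
        have h3 := congrFun hz i
        rw [← powMap_act, powMap_apply, powMap_apply] at h3
        rw [Pi.sub_apply, map_sub, h3, sub_self]
      choose w hw using h2
      refine ⟨Submodule.Quotient.mk w, ?_⟩
      have h4 : powMap O f b w = x - act (O := O) A M y := funext hw
      change Submodule.Quotient.mk (powMap O f b w) = _
      rw [h4, Submodule.Quotient.eq, sub_sub_cancel_left]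
      exact Submodule.neg_mem _ ⟨y, rfl⟩
    · rintro ⟨w, hw⟩
      obtain ⟨w, rfl⟩ := Submodule.Quotient.mk_surjective _ w
      rw [← hw]
      have h1 : cokMap O A g (cokMap O A f (Submodule.Quotient.mk w)) =
          Submodule.Quotient.mk (powMap O g b (powMap O f b w)) := rfl
      have h2 : powMap O g b (powMap O f b w) = 0 := by
        funext i
        exact hfg.apply_apply_eq_zero (w i)
      rw [h1, h2, Submodule.Quotient.mk_zero]

end act

section domain

variable {O : Type} [CommRing O] [IsDomain O]

lemma exists_smul_eq_zero (hO : ¬ IsField O) {N : Type*} [AddCommGroup N] [Module O N] (hN : Module.length O N ≠ ⊤)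
    (x : N) : ∃ o : O, o ≠ 0 ∧ o • x = 0 := by
  by_contra hcon
  push Not at hcon
  have h1 : Function.Injective (LinearMap.toSpanSingleton O N x) := by
    rw [← LinearMap.ker_eq_bot, LinearMap.ker_eq_bot']
    intro o ho
    by_contra hne
    exact hcon o hne ho
  have h2 : Module.length O O ≠ ⊤ := by
    have h3 := Module.length_le_of_injective (LinearMap.toSpanSingleton O N x) h1
    intro h4
    rw [h4, top_le_iff] at h3
    exact hN h3
  rw [Module.length_ne_top_iff, isFiniteLength_iff_isNoetherian_isArtinian] at h2
  have : IsArtinianRing O := h2.2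
  exact hO (IsArtinianRing.isField_of_isDomain O)

lemma isTorsion_of_length (hO : ¬ IsField O) {N : Type*} [AddCommGroup N] [Module O N]
    (hN : Module.length O N ≠ ⊤) : Module.IsTorsion O N := by
  intro x
  obtain ⟨o, h1, h2⟩ := exists_smul_eq_zero hO hN x
  exact ⟨⟨o, mem_nonZeroDivisors_of_ne_zero h1⟩, h2⟩

/-- The rank of the kernel of a map with a torsion cokernel. -/
lemma finrank_ker (hO : ¬ IsField O) {N N' : Type} [AddCommGroup N] [Module O N] [AddCommGroup N'] [Module O N']
    [Module.Finite O N] [Module.Finite O N'] (f : N →ₗ[O] N')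
    (hN : Module.length O (N' ⧸ LinearMap.range f) ≠ ⊤) :
    finrank O (LinearMap.ker f) + finrank O N' = finrank O N := by
  have h1 : finrank O (N' ⧸ LinearMap.range f) = 0 :=
    Module.finrank_eq_zero_iff_isTorsion.2 (isTorsion_of_length hO hN)
  have h2 := Submodule.finrank_quotient_add_finrank (LinearMap.range f)
  have h3 := Submodule.finrank_quotient_add_finrank (LinearMap.ker f)
  rw [LinearEquiv.finrank_eq f.quotKerEquivRange] at h3
  omega

/-- An endomorphism of a finitely generated torsion-free module with a cokernel of finite length is injective. -/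
lemma injective_of_length [IsNoetherianRing O] (hO : ¬ IsField O) {N N' : Type} [AddCommGroup N] [Module O N] [AddCommGroup N'] [Module O N']
    [Module.Finite O N] [Module.Finite O N'] [IsTorsionFree O N] (f : N →ₗ[O] N') (hr : finrank O N = finrank O N')
    (hN : Module.length O (N' ⧸ LinearMap.range f) ≠ ⊤) : Function.Injective f := by
  have h1 := finrank_ker hO f hN
  have h2 : finrank O (LinearMap.ker f) = 0 := by omega
  have h3 : Module.IsTorsion O (LinearMap.ker f) := Module.finrank_eq_zero_iff_isTorsion.1 h2
  rw [← LinearMap.ker_eq_bot, LinearMap.ker_eq_bot']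
  intro x hx
  obtain ⟨o, ho⟩ := @h3 ⟨x, hx⟩
  have h4 : (o : O) • x = 0 := congrArg Subtype.val ho
  exact (smul_eq_zero.1 h4).resolve_left (nonZeroDivisors.coe_ne_zero o)

end domain

end Pool.Agent.Q50.MU
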