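import Pool.Agent.Q50.MU.Lat

/-!
# The length of the cokernel of a square matrix and chains of submodules
-/

set_option autoImplicit false
set_option maxHeartbeats 4000000
set_option synthInstance.maxHeartbeats 400000

namespace Pool.Agent.Q50.MU

open Module Matrix TensorProduct IsLocalRing Pool.Agent.Q173.MU

/-- The submodule `V` is pure: the quotient is torsion-free over `O`. -/
def Pure (O : Type) [CommRing O] {R : Type} [Ring R] [Algebra O R] {M : Type} [AddCommGroup M] [Module O M]
    [Module R M] [IsScalarTower O R M] (V : Submodule R M) : Prop :=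
  ∀ (o : O) (x : M), o ≠ 0 → o • x ∈ V → x ∈ V

section

variable {O : Type} [CommRing O] [IsDomain O] {R : Type} [Ring R] [Algebra O R] {M M' : Type} [AddCommGroup M]
  [Module O M] [Module R M] [IsScalarTower O R M] [AddCommGroup M'] [Module O M'] [Module R M'] [IsScalarTower O R M']

lemma Pure.isTorsionFree {V : Submodule R M} (hV : Pure O V) : IsTorsionFree O (M ⧸ V) := by
  rw [Module.isTorsionFree_iff_smul_eq_zero]
  intro o x hx
  obtain ⟨x, rfl⟩ := Submodule.Quotient.mk_surjective _ x
  by_cases ho : o = 0
  · exact Or.inl ho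
  · right
    have h1 : V.mkQ (o • x) = 0 := hx
    have h2 : o • x ∈ V := (Submodule.Quotient.mk_eq_zero V).1 h1
    exact (Submodule.Quotient.mk_eq_zero V).2 (hV o x ho h2)

omit [IsDomain O] in
lemma length_cok_congr {b c : ℕ} (A : Matrix (Fin b) (Fin c) R) (e : M ≃ₗ[R] M') :
    Module.length O (cok O A M) = Module.length O (cok O A M') :=
  le_antisymm
    (Module.length_le_of_surjective _ (cokMap_surjective A e.symm.toLinearMap e.symm.surjective))
    (Module.length_le_of_surjective _ (cokMap_surjective A e.toLinearMap e.surjective))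

omit [IsDomain O] in
lemma finite_quot [Module.Finite O M] (V : Submodule R M) : Module.Finite O (M ⧸ V) :=
  Module.Finite.of_surjective (V.mkQ.restrictScalars O) (Submodule.mkQ_surjective V)

variable [IsPrincipalIdealRing O] {b : ℕ}

lemma finite_sub [Module.Finite O M] (V : Submodule R M) : Module.Finite O V :=
  Module.Finite.of_injective (V.subtype.restrictScalars O) V.injective_subtype

lemma act_injective (hO : ¬ IsField O) (A : Matrix (Fin b) (Fin b) R) [Module.Finite O M] [IsTorsionFree O M]
    (h : Module.length O (cok O A M) ≠ ⊤) : Function.Injective (act (O := O) A M) :=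
  injective_of_length hO _ rfl h

omit [IsDomain O] [IsPrincipalIdealRing O] in
lemma length_quot_ne_top (A : Matrix (Fin b) (Fin b) R) (V : Submodule R M)
    (h : Module.length O (cok O A M) ≠ ⊤) : Module.length O (cok O A (M ⧸ V)) ≠ ⊤ := by
  have h1 := Module.length_le_of_surjective _ (cokMap_surjective (O := O) A V.mkQ (Submodule.mkQ_surjective V))
  intro h2
  rw [h2, top_le_iff] at h1
  exact h h1

lemma length_pure (hO : ¬ IsField O) (A : Matrix (Fin b) (Fin b) R) [Module.Finite O M]
    (h : Module.length O (cok O A M) ≠ ⊤) {V : Submodule R M} (hV : Pure O V) :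
    Module.length O (cok O A M) = Module.length O (cok O A V) + Module.length O (cok O A (M ⧸ V)) := by
  have h1 := hV.isTorsionFree
  have h2 : Module.Finite O (M ⧸ V) :=
    Module.Finite.of_surjective (V.mkQ.restrictScalars O) (Submodule.mkQ_surjective V)
  exact length_cok A V.subtype V.mkQ V.injective_subtype (Submodule.mkQ_surjective V)
    (LinearMap.exact_subtype_mkQ V) (act_injective hO A (length_quot_ne_top A V h))

end

section group

variable {O : Type} [CommRing O] [IsDomain O] [IsPrincipalIdealRing O] [IsLocalRing O] {G : Type} [Group G] [Finite G]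
  {p : ℕ} [Fact p.Prime] [CharP (ResidueField O) p] {b : ℕ} {M : Type} [AddCommGroup M] [Module O M]
  [Module (MonoidAlgebra O G) M] [IsScalarTower O (MonoidAlgebra O G) M] [Module.Finite O M]

lemma length_step (hO : ¬ IsField O) (hG : IsPGroup p G) (A : Matrix (Fin b) (Fin b) (MonoidAlgebra O G))
    (h : Module.length O (cok O A M) ≠ ⊤) {V V' : Submodule (MonoidAlgebra O G) M} (hV : Pure O V) (hV' : Pure O V')
    (hlt : V < V') :
    Module.length O (cok O A V) + (rk O (cok O A (Triv O G O)) : ℕ∞) ≤ Module.length O (cok O A V') := by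
  have h1 := length_pure hO A h hV'
  have h2 : Module.length O (cok O A V') ≠ ⊤ := by
    intro h3
    rw [h3, top_add] at h1
    exact h h1
  have hfin : Module.Finite O V' := finite_sub V'
  have hp : Pure O (V.submoduleOf V') := by
    intro o x ho hx
    exact hV o x ho hx
  have h3 := length_pure hO A h2 hp
  have h5 := length_cok_congr (O := O) (M := V.submoduleOf V') (M' := V) A (Submodule.submoduleOfEquivOfLe hlt.le)
  rw [h3, h5]
  have hnt : Nontrivial (V' ⧸ V.submoduleOf V') := by
    rw [Submodule.Quotient.nontrivial_iff]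
    intro h4
    apply hlt.not_ge
    rwa [Submodule.submoduleOf_eq_top] at h4
  have hfin2 : Module.Finite O (V' ⧸ V.submoduleOf V') := finite_quot _
  have h6 := rk_le_length_cok (p := p) hG A (V' ⧸ V.submoduleOf V')
  exact add_le_add le_rfl h6

omit [IsLocalRing O] [Finite G] in
lemma length_mono (hO : ¬ IsField O) (A : Matrix (Fin b) (Fin b) (MonoidAlgebra O G))
    (h : Module.length O (cok O A M) ≠ ⊤) {V V' : Submodule (MonoidAlgebra O G) M} (hV : Pure O V) (hV' : Pure O V')
    (hle : V ≤ V') : Module.length O (cok O A V) ≤ Module.length O (cok O A V') := by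
  have h1 := length_pure hO A h hV'
  have h2 : Module.length O (cok O A V') ≠ ⊤ := by
    intro h3
    rw [h3, top_add] at h1
    exact h h1
  have hfin : Module.Finite O V' := finite_sub V'
  have hp : Pure O (V.submoduleOf V') := by
    intro o x ho hx
    exact hV o x ho hx
  have h3 := length_pure hO A h2 hp
  have h5 := length_cok_congr (O := O) (M := V.submoduleOf V') (M' := V) A (Submodule.submoduleOfEquivOfLe hle)
  rw [h3, h5]
  exact le_self_add

/-- **Chains.** -/
lemma length_chain (hO : ¬ IsField O) (hG : IsPGroup p G) (A : Matrix (Fin b) (Fin b) (MonoidAlgebra O G))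
    (h : Module.length O (cok O A M) ≠ ⊤) (V : ℕ → Submodule (MonoidAlgebra O G) M) (t : ℕ)
    (hV : ∀ i ≤ t, Pure O (V i)) (hlt : ∀ i < t, V i < V (i + 1)) :
    (t : ℕ∞) * (rk O (cok O A (Triv O G O)) : ℕ∞) ≤ Module.length O (cok O A (V t)) := by
  induction t with
  | zero => simp
  | succ t ih =>
    have h1 := ih (fun i hi => hV i (by omega)) (fun i hi => hlt i (by omega))
    have h2 := length_step (p := p) hO hG A h (hV t (by omega)) (hV (t + 1) le_rfl) (hlt t (by omega))
    have h3 : ((t + 1 : ℕ) : ℕ∞) * (rk O (cok O A (Triv O G O)) : ℕ∞) ≤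
        Module.length O (cok O A (V t)) + (rk O (cok O A (Triv O G O)) : ℕ∞) := by
      rw [Nat.cast_succ, add_mul, one_mul]
      exact add_le_add h1 le_rfl
    exact h3.trans h2

/-- The augmentation as a map to the trivial module. -/
noncomputable def augTriv (O G : Type) [CommRing O] [Group G] : MonoidAlgebra O G →ₗ[MonoidAlgebra O G] Triv O G O where
  toFun x := aug O G x
  map_add' x y := map_add _ x y
  map_smul' x y := map_mul (aug O G) x y

omit [IsDomain O] [IsPrincipalIdealRing O] [IsLocalRing O] [Finite G] in
lemma augTriv_surjective : Function.Surjective (augTriv O G) := aug_surjective (S := O) (G := G)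

/-- **Main lower bound.** -/
theorem length_cok_ge (hO : ¬ IsField O) (hG : IsPGroup p G) (A : Matrix (Fin b) (Fin b) (MonoidAlgebra O G))
    (h : Module.length O (cok O A (MonoidAlgebra O G)) ≠ ⊤) (V : ℕ → Submodule (MonoidAlgebra O G) (MonoidAlgebra O G))
    (t : ℕ) (hV : ∀ i ≤ t, Pure O (V i)) (hlt : ∀ i < t, V i < V (i + 1))
    (haug : ∀ x ∈ V t, aug O G x = 0) :
    Module.length O (cok O A (Triv O G O)) + (t : ℕ∞) * (rk O (cok O A (Triv O G O)) : ℕ∞) ≤
      Module.length O (cok O A (MonoidAlgebra O G)) := by
  set I := LinearMap.ker (augTriv O G) with hI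
  have hIp : Pure O I := by
    intro o x ho hx
    have h1 : aug O G (o • x) = 0 := hx
    rw [Algebra.smul_def, map_mul, aug_algebraMap] at h1
    exact (mul_eq_zero.1 h1).resolve_left ho
  have h1 := length_pure hO A h hIp
  have e : (MonoidAlgebra O G ⧸ I) ≃ₗ[MonoidAlgebra O G] Triv O G O :=
    (augTriv O G).quotKerEquivOfSurjective augTriv_surjective
  have h5 := length_cok_congr (O := O) A e
  rw [h1, h5, add_comm]
  have h6 := length_chain (p := p) hO hG A h V t hV hlt
  have h7 : Module.length O (cok O A (V t)) ≤ Module.length O (cok O A I) :=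
    length_mono hO A h (hV t le_rfl) hIp (fun x hx => haug x hx)
  exact add_le_add (h6.trans h7) le_rfl

end group

end Pool.Agent.Q50.MU
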