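import Pool.Agent.Q50.MU.Irr

/-!
# Lower bounds for the number of irreducible constituents of the regular representation over `ℚ`
-/

set_option autoImplicit false
set_option maxHeartbeats 4000000
set_option synthInstance.maxHeartbeats 400000

namespace Pool.Agent.Q50.MU

open Module Pool.Agent.Q173.MU

/-- A chain of submodules gives a lower bound for the length. -/
lemma le_length_of_chain {R M : Type} [Ring R] [AddCommGroup M] [Module R M] (V : ℕ → Submodule R M) (t : ℕ)
    (hlt : ∀ i < t, V i < V (i + 1)) : (t : ℕ∞) ≤ Module.length R M := by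
  let s : LTSeries (Submodule R M) :=
    { length := t
      toFun := fun i => V i
      step := fun i => hlt i i.2 }
  have h1 : ((s.length : ℕ∞) : WithBot ℕ∞) ≤ Order.krullDim (Submodule R M) := Order.LTSeries.length_le_krullDim s
  rw [← Module.coe_length] at h1
  exact WithBot.coe_le_coe.1 h1

section subgroups

variable {G : Type} [Group G]

/-- The left ideal of the elements fixed by the right multiplications by the elements of `H`. -/
noncomputable def fixIdeal (H : Subgroup G) : Submodule (MonoidAlgebra ℚ G) (MonoidAlgebra ℚ G) where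
  carrier := {x | ∀ h ∈ H, x * MonoidAlgebra.single h 1 = x}
  add_mem' := by
    intro x y hx hy h hh
    rw [add_mul, hx h hh, hy h hh]
  zero_mem' := by
    intro h _
    rw [zero_mul]
  smul_mem' := by
    intro x y hy h hh
    rw [smul_eq_mul, mul_assoc, hy h hh]

lemma fixIdeal_lt [Finite G] {H H' : Subgroup G} (hlt : H < H') : fixIdeal H' < fixIdeal H := by
  classical
  have := Fintype.ofFinite G
  refine lt_of_le_not_ge (fun x hx h hh => hx h (hlt.le hh)) ?_
  intro hle
  obtain ⟨k, hk, hkH⟩ := SetLike.exists_of_lt hlt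
  set x : MonoidAlgebra ℚ G := ∑ g ∈ Finset.univ.filter (fun g => g ∈ H), MonoidAlgebra.single g 1 with hx
  have hcoeff : ∀ g, x.coeff g = if g ∈ H then 1 else 0 := by
    intro g
    rw [hx, MonoidAlgebra.coeff_sum, Finsupp.finsetSum_apply]
    simp only [MonoidAlgebra.coeff_single, Finsupp.single_apply]
    rw [Finset.sum_ite_eq']
    simp
  have hmul : ∀ (h g : G), (x * MonoidAlgebra.single h 1).coeff g = if g * h⁻¹ ∈ H then 1 else 0 := by
    intro h g
    rw [hx, Finset.sum_mul, MonoidAlgebra.coeff_sum, Finsupp.finsetSum_apply]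
    simp only [MonoidAlgebra.single_mul_single, mul_one, MonoidAlgebra.coeff_single, Finsupp.single_apply]
    have h1 : ∀ a : G, (if a * h = g then (1 : ℚ) else 0) = if a = g * h⁻¹ then 1 else 0 := by
      intro a
      congr 1
      rw [eq_mul_inv_iff_mul_eq]
    simp only [h1]
    rw [Finset.sum_ite_eq']
    simp
  have hxH : x ∈ fixIdeal H := by
    intro h hh
    apply MonoidAlgebra.coeff_injective
    apply Finsupp.ext
    intro g
    rw [hmul, hcoeff, H.mul_mem_cancel_right (H.inv_mem hh)]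
  have h2 := congrArg (fun y : MonoidAlgebra ℚ G => y.coeff 1) (hle hxH k hk)
  simp only [hmul, hcoeff, one_mul] at h2
  rw [if_neg (fun h => hkH (by simpa using H.inv_mem h)), if_pos H.one_mem] at h2
  exact zero_ne_one h2

/-- A group of order `p ^ n` has at least `n + 1` constituents. -/
theorem le_irr_of_card [Finite G] {p n : ℕ} [hp : Fact p.Prime] (hG : Nat.card G = p ^ n) : n + 1 ≤ irr G := by
  have h1 : ∀ j ≤ n, ∃ H : ℕ → Subgroup G, (∀ i ≤ j, Nat.card (H i) = p ^ i) ∧ ∀ i < j, H i < H (i + 1) := by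
    intro j
    induction j with
    | zero =>
      intro _
      exact ⟨fun _ => ⊥, fun i hi => by rw [Nat.le_zero.1 hi, pow_zero, Subgroup.card_bot], fun i hi => by omega⟩
    | succ j ih =>
      intro hj
      obtain ⟨H, hH1, hH2⟩ := ih (by omega)
      obtain ⟨K, hK1, hK2⟩ := Sylow.exists_subgroup_card_pow_succ (n := j) (p := p)
        (by rw [hG]; exact pow_dvd_pow p hj) (hH1 j le_rfl)
      have hlt : H j < K := by
        refine lt_of_le_of_ne hK2 ?_
        intro h
        rw [← h, hH1 j le_rfl] at hK1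
        exact absurd hK1 (pow_lt_pow_right₀ hp.out.one_lt (Nat.lt_succ_self j)).ne
      refine ⟨fun i => if i ≤ j then H i else K, ?_, ?_⟩
      · intro i hi
        change Nat.card (if i ≤ j then H i else K : Subgroup G) = _
        by_cases h : i ≤ j
        · rw [if_pos h, hH1 i h]
        · rw [if_neg h, hK1]
          congr 1
          omega
      · intro i hi
        change (if i ≤ j then H i else K) < (if i + 1 ≤ j then H (i + 1) else K)
        by_cases h : i + 1 ≤ j
        · rw [if_pos (by omega), if_pos h]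
          exact hH2 i (by omega)
        · rw [if_pos (by omega), if_neg h]
          have : i = j := by omega
          rw [this]
          exact hlt
  obtain ⟨H, hH1, hH2⟩ := h1 n le_rfl
  have h3 : ((n + 1 : ℕ) : ℕ∞) ≤ Module.length (MonoidAlgebra ℚ G) (MonoidAlgebra ℚ G) := by
    refine le_length_of_chain (fun i => if i = 0 then ⊥ else fixIdeal (H (n + 1 - i))) (n + 1) ?_
    intro i hi
    change (if i = 0 then ⊥ else fixIdeal (H (n + 1 - i))) < (if i + 1 = 0 then ⊥ else fixIdeal (H (n + 1 - (i + 1))))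
    rw [if_neg (Nat.succ_ne_zero i)]
    by_cases h0 : i = 0
    · rw [if_pos h0, bot_lt_iff_ne_bot, h0]
      intro hbot
      classical
      have := Fintype.ofFinite G
      have hmem : (∑ g : G, MonoidAlgebra.single g (1 : ℚ)) ∈ fixIdeal (H (n + 1 - (0 + 1))) := by
        intro h _
        rw [Finset.sum_mul]
        simp only [MonoidAlgebra.single_mul_single, mul_one]
        exact Fintype.sum_equiv (Equiv.mulRight h) _ _ (fun g => rfl)
      rw [hbot, Submodule.mem_bot] at hmem
      have h4 := congrArg (fun y : MonoidAlgebra ℚ G => y.coeff 1) hmem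
      simp only [MonoidAlgebra.coeff_sum, Finsupp.finsetSum_apply, MonoidAlgebra.coeff_single,
        Finsupp.single_apply, Finset.sum_ite_eq', Finset.mem_univ, if_true, MonoidAlgebra.coeff_zero] at h4
      exact one_ne_zero h4
    · rw [if_neg h0]
      have h5 := fixIdeal_lt (hH2 (n - i) (by omega))
      have h6 : n + 1 - i = n - i + 1 := by omega
      have h7 : n + 1 - (i + 1) = n - i := by omega
      rw [h6, h7]
      exact h5
  rw [← irr_eq] at h3
  exact_mod_cast h3

end subgroups

section characters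

variable {G : Type} [Group G]

/-- The extension of a character to the group ring. -/
noncomputable def chr (χ : G →* ℂˣ) : MonoidAlgebra ℚ G →ₐ[ℚ] ℂ :=
  MonoidAlgebra.lift ℚ ℂ G ((Units.coeHom ℂ).comp χ)

lemma chr_single (χ : G →* ℂˣ) (g : G) : chr χ (MonoidAlgebra.single g 1) = (χ g : ℂ) := by
  rw [chr, MonoidAlgebra.lift_single, one_smul]
  rfl

lemma exists_sep [Finite G] {χ χ' : G →* ℂˣ} (h : χ.ker ≠ χ'.ker) : ∃ y, chr χ y = 0 ∧ chr χ' y ≠ 0 := by
  by_cases h1 : χ.ker ≤ χ'.ker
  · obtain ⟨g, hg', hg⟩ := SetLike.exists_of_lt (lt_of_le_of_ne h1 h)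
    have hgne : (χ g : ℂ) ≠ 1 := by
      intro h2
      exact hg (MonoidHom.mem_ker.2 (Units.ext h2))
    have hg1 : (χ' g : ℂ) = 1 := by
      rw [MonoidHom.mem_ker.1 hg']
      rfl
    have hm := orderOf_pos g
    refine ⟨∑ i ∈ Finset.range (orderOf g), MonoidAlgebra.single (g ^ i) 1, ?_, ?_⟩
    · rw [map_sum]
      simp only [chr_single, map_pow, Units.val_pow_eq_pow_val]
      have h2 := geom_sum_mul (χ g : ℂ) (orderOf g)
      have h3 : (χ g : ℂ) ^ orderOf g = 1 := by
        rw [← Units.val_pow_eq_pow_val, ← map_pow, pow_orderOf_eq_one, map_one]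
        rfl
      rw [h3, sub_self] at h2
      exact (mul_eq_zero.1 h2).resolve_right (sub_ne_zero.2 hgne)
    · rw [map_sum]
      simp only [chr_single, map_pow, Units.val_pow_eq_pow_val, hg1, one_pow]
      rw [Finset.sum_const, Finset.card_range, nsmul_eq_mul, mul_one]
      exact_mod_cast hm.ne'
  · obtain ⟨g, hg, hg'⟩ := SetLike.not_le_iff_exists.1 h1
    refine ⟨MonoidAlgebra.single g 1 - 1, ?_, ?_⟩
    · rw [map_sub, map_one, chr_single, MonoidHom.mem_ker.1 hg]
      simp
    · rw [map_sub, map_one, chr_single, sub_ne_zero]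
      intro h2
      exact hg' (MonoidHom.mem_ker.2 (Units.ext h2))

lemma exists_sep_finset [Finite G] (χ : G →* ℂˣ) (l : Finset (G →* ℂˣ)) (hl : ∀ ψ ∈ l, ψ.ker ≠ χ.ker) :
    ∃ y, (∀ ψ ∈ l, chr ψ y = 0) ∧ chr χ y ≠ 0 := by
  classical
  induction l using Finset.induction_on with
  | empty => exact ⟨1, fun ψ h => absurd h (Finset.notMem_empty ψ), by rw [map_one]; exact one_ne_zero⟩
  | insert a l _ ih =>
    obtain ⟨y, h1, h2⟩ := ih (fun ψ h => hl ψ (Finset.mem_insert_of_mem h))
    obtain ⟨z, h3, h4⟩ := exists_sep (hl a (Finset.mem_insert_self a l))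
    refine ⟨y * z, ?_, ?_⟩
    · intro ψ hψ
      rw [map_mul]
      rcases Finset.mem_insert.1 hψ with rfl | h
      · rw [h3, mul_zero]
      · rw [h1 ψ h, zero_mul]
    · rw [map_mul]
      exact mul_ne_zero h2 h4

/-- The common kernel of the first `k` characters. -/
noncomputable def chrIdeal {n : ℕ} (χ : Fin n → (G →* ℂˣ)) (k : ℕ) :
    Submodule (MonoidAlgebra ℚ G) (MonoidAlgebra ℚ G) where
  carrier := {x | ∀ i : Fin n, (i : ℕ) < k → chr (χ i) x = 0}
  add_mem' := by
    intro x y hx hy i hi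
    rw [map_add, hx i hi, hy i hi, add_zero]
  zero_mem' := by
    intro i _
    rw [map_zero]
  smul_mem' := by
    intro x y hy i hi
    rw [smul_eq_mul, map_mul, hy i hi, mul_zero]

/-- **The number of the kernels of the characters.** -/
theorem card_kernels_le [Finite G] (S : Finset (Subgroup G)) (hS : ∀ H ∈ S, ∃ χ : G →* ℂˣ, χ.ker = H) :
    S.card ≤ irr G := by
  classical
  set n := S.card with hn
  let e : Fin n ≃ S := (Finset.equivFin S).symm
  choose ψ hψ using hS
  let χ : Fin n → (G →* ℂˣ) := fun i => ψ (e i) (e i).2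
  have hχ : ∀ i j, i ≠ j → (χ i).ker ≠ (χ j).ker := by
    intro i j hij h
    apply hij
    apply e.injective
    apply Subtype.ext
    have h1 : (χ i).ker = (e i : Subgroup G) := hψ _ _
    have h2 : (χ j).ker = (e j : Subgroup G) := hψ _ _
    rw [← h1, ← h2, h]
  have h3 : ((n : ℕ) : ℕ∞) ≤ Module.length (MonoidAlgebra ℚ G) (MonoidAlgebra ℚ G) := by
    refine le_length_of_chain (fun j => chrIdeal χ (n - j)) n ?_
    intro j hj
    change chrIdeal χ (n - j) < chrIdeal χ (n - (j + 1))
    refine lt_of_le_not_ge (fun x hx i hi => hx i (by omega)) ?_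
    intro hle
    let k : Fin n := ⟨n - (j + 1), by omega⟩
    obtain ⟨y, hy1, hy2⟩ := exists_sep_finset (χ k)
      ((Finset.univ.filter (fun i : Fin n => (i : ℕ) < n - (j + 1))).image χ) (by
        intro φ hφ
        obtain ⟨i, hi, rfl⟩ := Finset.mem_image.1 hφ
        have hi2 : (i : ℕ) < n - (j + 1) := (Finset.mem_filter.1 hi).2
        apply hχ
        intro h
        rw [h] at hi2
        exact lt_irrefl _ hi2)
    have h4 : y ∈ chrIdeal χ (n - (j + 1)) := by
      intro i hi
      exact hy1 _ (Finset.mem_image.2 ⟨i, Finset.mem_filter.2 ⟨Finset.mem_univ _, hi⟩, rfl⟩)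
    exact hy2 (hle h4 k (by
      change n - (j + 1) < n - j
      omega))
  rw [← irr_eq] at h3
  exact_mod_cast h3

end characters

section abelian

variable {G : Type} [CommGroup G] [Finite G]

/-- The number of the characters with a given kernel. -/
lemma card_fiber_le {N : ℕ} (hN : 0 < N) (hG : ∀ g : G, g ^ N = 1) (χ : G →* ℂˣ) :
    Nat.card {ψ : G →* ℂˣ // ψ.ker = χ.ker} ≤ N.totient := by
  classical
  -- a generator of the image
  have hfin : Finite χ.range := Finite.of_surjective χ.rangeRestrict χ.rangeRestrict_surjective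
  have hcyc : IsCyclic χ.range := inferInstance
  obtain ⟨⟨_, ⟨g, rfl⟩⟩, hgen⟩ := hcyc.exists_generator
  have hrep : ∀ x : G, ∃ k : ℤ, χ x = χ g ^ k := by
    intro x
    obtain ⟨k, hk⟩ := Subgroup.mem_zpowers_iff.1 (hgen ⟨χ x, ⟨x, rfl⟩⟩)
    exact ⟨k, (congrArg Subtype.val hk).symm⟩
  set d := orderOf (χ g) with hd
  have hdN : d ∣ N := orderOf_dvd_of_pow_eq_one (by rw [← map_pow, hG, map_one])
  have hd0 : 0 < d := Nat.pos_of_dvd_of_pos hdN hN
  have hord : ∀ ψ : G →* ℂˣ, ψ.ker = χ.ker → orderOf (ψ g) = d := by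
    intro ψ hψ
    apply orderOf_eq_orderOf_iff.2
    intro n
    rw [← map_pow, ← map_pow, ← MonoidHom.mem_ker, ← MonoidHom.mem_ker, hψ]
  let f : {ψ : G →* ℂˣ // ψ.ker = χ.ker} → primitiveRoots d ℂ := fun ψ =>
    ⟨(ψ.1 g : ℂ), by
      rw [mem_primitiveRoots hd0, IsPrimitiveRoot.coe_units_iff]
      have h1 := IsPrimitiveRoot.orderOf (ψ.1 g)
      rwa [hord ψ.1 ψ.2] at h1⟩
  have hf : Function.Injective f := by
    intro ψ ψ' h
    have h1 : ψ.1 g = ψ'.1 g := Units.ext (congrArg Subtype.val h)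
    apply Subtype.ext
    apply MonoidHom.ext
    intro x
    obtain ⟨k, hk⟩ := hrep x
    have h2 : x * (g ^ k)⁻¹ ∈ χ.ker := by
      rw [MonoidHom.mem_ker, map_mul, map_inv, map_zpow, hk, mul_inv_cancel]
    have h3 : ∀ φ : G →* ℂˣ, φ.ker = χ.ker → φ x = φ g ^ k := by
      intro φ hφ
      have h4 : x * (g ^ k)⁻¹ ∈ φ.ker := by rw [hφ]; exact h2
      rw [MonoidHom.mem_ker, map_mul, map_inv, map_zpow, mul_inv_eq_one] at h4
      exact h4
    rw [h3 ψ.1 ψ.2, h3 ψ'.1 ψ'.2, h1]
  have h5 := Nat.card_le_card_of_injective f hf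
  have h6 : Nat.card (primitiveRoots d ℂ) = d.totient := by
    rw [Nat.card_eq_fintype_card, Fintype.card_coe, Complex.card_primitiveRoots]
  rw [h6] at h5
  exact h5.trans (Nat.le_of_dvd (Nat.totient_pos.2 hN) (Nat.totient_dvd_of_dvd hdN))

/-- **Abelian groups.** -/
theorem card_le_irr {N : ℕ} (hN : 0 < N) (hG : ∀ g : G, g ^ N = 1) :
    Nat.card G ≤ 1 + (irr G - 1) * N.totient := by
  classical
  have hfin : Finite (G →* ℂˣ) := inferInstance
  have := Fintype.ofFinite (G →* ℂˣ)
  have hcard : Fintype.card (G →* ℂˣ) = Nat.card G := by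
    rw [← Nat.card_eq_fintype_card]
    exact CommGroup.card_monoidHom_of_hasEnoughRootsOfUnity G ℂ
  set T : Finset (Subgroup G) := Finset.univ.image (fun χ : G →* ℂˣ => χ.ker) with hT
  have hTirr : T.card ≤ irr G := card_kernels_le T (by
    intro H hH
    obtain ⟨χ, _, hχ⟩ := Finset.mem_image.1 hH
    exact ⟨χ, hχ⟩)
  have htop : (⊤ : Subgroup G) ∈ T := Finset.mem_image.2 ⟨1, Finset.mem_univ _, MonoidHom.ker_one⟩
  have h1 : Fintype.card (G →* ℂˣ) = ∑ H ∈ T, (Finset.univ.filter (fun χ : G →* ℂˣ => χ.ker = H)).card :=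
    Finset.card_eq_sum_card_image (fun χ : G →* ℂˣ => χ.ker) Finset.univ
  rw [← hcard, h1, ← Finset.add_sum_erase T _ htop]
  have h2 : (Finset.univ.filter (fun χ : G →* ℂˣ => χ.ker = ⊤)).card ≤ 1 := by
    rw [Finset.card_le_one]
    intro a ha b hb
    rw [(MonoidHom.ker_eq_top_iff.1 (Finset.mem_filter.1 ha).2), (MonoidHom.ker_eq_top_iff.1 (Finset.mem_filter.1 hb).2)]
  have h3 : ∑ H ∈ T.erase ⊤, (Finset.univ.filter (fun χ : G →* ℂˣ => χ.ker = H)).card ≤
      ∑ _H ∈ T.erase ⊤, N.totient := by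
    refine Finset.sum_le_sum (fun H hH => ?_)
    obtain ⟨χ, _, hχ⟩ := Finset.mem_image.1 (Finset.mem_of_mem_erase hH)
    have h4 := card_fiber_le hN hG χ
    rw [Nat.card_eq_fintype_card, Fintype.card_subtype] at h4
    rw [← hχ]
    exact h4
  rw [Finset.sum_const, smul_eq_mul, Finset.card_erase_of_mem htop] at h3
  have h5 : (T.card - 1) * N.totient ≤ (irr G - 1) * N.totient := Nat.mul_le_mul_right _ (by omega)
  omega

end abelian

end Pool.Agent.Q50.MU
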