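import Pool.Agent.Q173.MU.Data

/-!
# The degrees of the layers of an extension
-/

set_option autoImplicit false
set_option maxHeartbeats 4000000
set_option synthInstance.maxHeartbeats 400000

namespace Pool.Agent.Q50.MU

open Module Pool.Agent.Q173.MU

/-- The layers are Galois extensions. -/
lemma layer_galois {p m : ℕ} [hp : Fact p.Prime] {F K : IntermediateField ℚ ℂ} (hK : IsLayer p m F K) :
    IsGalois F (IntermediateField.extendScalars (layer_le hK)) := by
  have hle := layer_le hK
  obtain ⟨E, hE, -, -, hsup⟩ := hK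
  set n := p ^ (m + 2) with hn
  have hn0 : NeZero n := ⟨(pow_pos hp.out.pos _).ne'⟩
  obtain ⟨ζ, hζ⟩ : ∃ ζ : ℂ, IsPrimitiveRoot ζ n := ⟨_, Complex.isPrimitiveRoot_exp n hn0.out⟩
  have hC : IsCyclotomicExtension {n} F (IntermediateField.adjoin F {ζ}) :=
    (IntermediateField.isCyclotomicExtension_singleton_iff_eq_adjoin n F ℂ (IntermediateField.adjoin F {ζ}) hζ).2 rfl
  have hab : IsAbelianGalois F (IntermediateField.adjoin F {ζ}) := IsCyclotomicExtension.isAbelianGalois {n} F _
  have hle2 : IntermediateField.extendScalars hle ≤ IntermediateField.adjoin F {ζ} := by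
    rw [IntermediateField.extendScalars_le_iff, hsup, sup_le_iff]
    constructor
    · intro x hx
      exact (IntermediateField.adjoin F {ζ}).algebraMap_mem ⟨x, hx⟩
    · refine hE.trans ?_
      rw [IntermediateField.adjoin_le_iff]
      intro z hz
      obtain ⟨i, _, rfl⟩ := hζ.eq_pow_of_pow_eq_one hz
      have h1 : ζ ∈ IntermediateField.adjoin F {ζ} := IntermediateField.mem_adjoin_simple_self F ζ
      exact pow_mem h1 i
  have h1 : IsAbelianGalois F (IntermediateField.extendScalars hle) :=
    IsAbelianGalois.of_algHom (IntermediateField.inclusion hle2)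
  exact h1.toIsGalois

/-- **The degrees of the layers of `L` are the degrees of the layers of `F`.** -/
lemma deg_sup {p m : ℕ} [hp : Fact p.Prime] {F L K : IntermediateField ℚ ℂ} (hFL : F ≤ L) (hL : FiniteDimensional ℚ L)
    (hK : IsLayer p m F K) (hinf : L ⊓ K = F) : deg L (L ⊔ K) = deg F K := by
  have hle := layer_le hK
  have hF : FiniteDimensional ℚ F := Module.Finite.of_injective (IntermediateField.inclusion hFL).toLinearMap
    (IntermediateField.inclusion_injective hFL)
  have hKf := layer_fin hp.out hF hK
  have hG := layer_galois hK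
  set A := IntermediateField.extendScalars hle with hA
  set B := IntermediateField.extendScalars hFL with hB
  have hAf : FiniteDimensional F A := by
    have : FiniteDimensional ℚ A := hKf
    exact Module.Finite.of_restrictScalars_finite ℚ F A
  have hBf : FiniteDimensional F B := by
    have : FiniteDimensional ℚ B := hL
    exact Module.Finite.of_restrictScalars_finite ℚ F B
  have hAB : A ⊓ B = ⊥ := by
    rw [eq_bot_iff]
    intro x hx
    have h1 : x ∈ L ⊓ K := ⟨hx.2, hx.1⟩
    rw [hinf] at h1
    exact IntermediateField.mem_bot.2 ⟨⟨x, h1⟩, rfl⟩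
  have hd := IntermediateField.LinearDisjoint.of_inf_eq_bot hAB
  have h1 := hd.finrank_sup
  have h2 : finrank F A = deg F K := (IntermediateField.relfinrank_eq_finrank_of_le hle).symm
  have h3 : finrank F B = deg F L := (IntermediateField.relfinrank_eq_finrank_of_le hFL).symm
  have h4 : F ≤ L ⊔ K := hFL.trans le_sup_left
  have h5 : finrank F ↥(A ⊔ B) = deg F (L ⊔ K) := by
    rw [deg, IntermediateField.relfinrank_eq_finrank_of_le h4]
    have h6 : A ⊔ B = IntermediateField.extendScalars h4 := by
      rw [hA, hB, sup_comm, IntermediateField.extendScalars_sup]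
    rw [h6]
  rw [h5, h2, h3, ← deg_mul hFL (le_sup_left : L ≤ L ⊔ K)] at h1
  have h6 : 0 < deg F L := by
    rw [← h3]
    exact Module.finrank_pos
  rw [mul_comm (deg F K)] at h1
  exact Nat.eq_of_mul_eq_mul_left h6 h1

/-- The composite with a layer is a layer. -/
lemma layer_sup {p m : ℕ} {F L K : IntermediateField ℚ ℂ} (hFL : F ≤ L) (hK : IsLayer p m F K) :
    IsLayer p m L (L ⊔ K) := by
  obtain ⟨E, h1, h2, h3, rfl⟩ := hK
  exact ⟨E, h1, h2, h3, by rw [← sup_assoc, sup_eq_left.2 hFL]⟩

end Pool.Agent.Q50.MU
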