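import Pool.Agent.Q50.MU.Irr

/-!
# Matrices with more columns than rows: the contribution of the elementary abelian quotients
-/

set_option autoImplicit false
set_option maxHeartbeats 4000000
set_option synthInstance.maxHeartbeats 400000

namespace Pool.Agent.Q50.MU

open Module Matrix TensorProduct IsLocalRing Pool.Agent.Q173.MU

section der

variable {O : Type} [CommRing O] {k : Type} [Field k] [Algebra O k] {G : Type} [Group G] {d : ℕ}

/-- The derivation of the group ring with values in `k ^ d` defined by a homomorphism `f` to `k ^ d`. -/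
noncomputable def der (O : Type) [CommRing O] {k : Type} [Field k] [Algebra O k] {G : Type} [Group G] {d : ℕ}
    (f : G → (Fin d → k)) : MonoidAlgebra O G →ₗ[O] (Fin d → k) :=
  (Finsupp.linearCombination O f) ∘ₗ (MonoidAlgebra.coeffLinearEquiv O).toLinearMap

lemma der_single (f : G → (Fin d → k)) (g : G) (a : O) : der O f (MonoidAlgebra.single g a) = a • f g := by
  change Finsupp.linearCombination O f (Finsupp.single g a) = _
  rw [Finsupp.linearCombination_single]

lemma der_single_mul (f : G → (Fin d → k)) (hf : ∀ g h, f (g * h) = f g + f h) (g : G) (c : O)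
    (y : MonoidAlgebra O G) : der O f (MonoidAlgebra.single g c * y) =
      c • der O f y + aug O G y • der O f (MonoidAlgebra.single g c) := by
  induction y using MonoidAlgebra.induction with
  | zero => simp only [mul_zero, map_zero, zero_smul, smul_zero, add_zero]
  | single_add h a y _ _ ih =>
    rw [mul_add, map_add, ih, map_add, map_add, add_smul, smul_add, MonoidAlgebra.single_mul_single, der_single,
      der_single, der_single, aug_single, hf, smul_add, mul_smul, mul_smul, smul_comm c a (f g)]
    abel

lemma der_mul (f : G → (Fin d → k)) (hf : ∀ g h, f (g * h) = f g + f h) (x y : MonoidAlgebra O G) :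
    der O f (x * y) = aug O G x • der O f y + aug O G y • der O f x := by
  induction x using MonoidAlgebra.induction with
  | zero => simp only [zero_mul, map_zero, zero_smul, smul_zero, add_zero]
  | single_add g c x _ _ ih =>
    rw [add_mul, map_add, ih, map_add, map_add, add_smul, smul_add, aug_single, der_single_mul f hf]
    abel

end der

section spanlen

variable {O : Type} [CommRing O] [IsLocalRing O]

/-- The length of a module spanned by `r` elements which are killed by the maximal ideal. -/
lemma length_span_le {T : Type} [AddCommGroup T] [Module O T] (hT : ∀ o ∈ maximalIdeal O, ∀ t : T, o • t = 0)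
    {r : ℕ} (t : Fin r → T) : Module.length O (Submodule.span O (Set.range t)) ≤ r := by
  have hsimple : IsSimpleModule O (O ⧸ maximalIdeal O) :=
    isSimpleModule_iff_isCoatom.2 (Ideal.isMaximal_def.1 inferInstance)
  -- the map from the power of the residue field
  have hker : ∀ i, maximalIdeal O ≤ LinearMap.ker (LinearMap.toSpanSingleton O T (t i)) := by
    intro i o ho
    exact hT o ho (t i)
  let φ : (Fin r → O ⧸ maximalIdeal O) →ₗ[O] T :=
    ∑ i, (Submodule.liftQ (maximalIdeal O) (LinearMap.toSpanSingleton O T (t i)) (hker i)) ∘ₗ LinearMap.proj i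
  have hφ : ∀ i, φ (Pi.single i (Submodule.Quotient.mk (1 : O))) = t i := by
    intro i
    rw [LinearMap.sum_apply, Finset.sum_eq_single i]
    · rw [LinearMap.comp_apply, LinearMap.proj_apply, Pi.single_eq_same, Submodule.liftQ_apply,
        LinearMap.toSpanSingleton_apply, one_smul]
    · intro j _ hj
      rw [LinearMap.comp_apply, LinearMap.proj_apply, Pi.single_eq_of_ne hj, map_zero]
    · intro h
      exact absurd (Finset.mem_univ i) h
  have hle : Submodule.span O (Set.range t) ≤ LinearMap.range φ := by
    rw [Submodule.span_le]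
    rintro _ ⟨i, rfl⟩
    exact ⟨_, hφ i⟩
  have h1 : Module.length O (Submodule.span O (Set.range t)) ≤ Module.length O (LinearMap.range φ) :=
    Module.length_le_of_injective (Submodule.inclusion hle) (Submodule.inclusion_injective hle)
  have h2 : Module.length O (LinearMap.range φ) ≤ Module.length O (Fin r → O ⧸ maximalIdeal O) :=
    Module.length_le_of_surjective φ.rangeRestrict φ.surjective_rangeRestrict
  have h3 : Module.length O (Fin r → O ⧸ maximalIdeal O) = r := by
    rw [Module.length_pi, Module.length_eq_one]
    simp
  rw [h3] at h2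
  exact h1.trans h2

end spanlen

section main

variable {O : Type} [CommRing O] [IsDomain O] [IsPrincipalIdealRing O] [IsLocalRing O] {G : Type}
  [Group G] [Finite G] {p : ℕ} [Fact p.Prime] [CharP (ResidueField O) p] {b r d : ℕ}

/-- The homomorphism to the residue field. -/
noncomputable def homRes (O : Type) [CommRing O] [IsLocalRing O] {p : ℕ} [Fact p.Prime] [CharP (ResidueField O) p]
    {G : Type} {d : ℕ} (f : G → (Fin d → ZMod p)) : G → (Fin d → ResidueField O) :=
  fun g i => ZMod.castHom (dvd_refl p) (ResidueField O) (f g i)

/-- **The contribution of an elementary abelian quotient.** -/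
theorem length_cok_add_ge (hO : ¬ IsField O) (hG : IsPGroup p G)
    (A : Matrix (Fin b) (Fin (b + r)) (MonoidAlgebra O G)) (f : G → (Fin d → ZMod p))
    (hf : ∀ g h, f (g * h) = f g + f h) (hfs : Function.Surjective f)
    (hY : Module.length O (cok O A (Triv O G O)) ≠ ⊤) :
    Module.length O (cok O A (Triv O G O)) + (d : ℕ∞) * (rk O (cok O A (Triv O G O)) : ℕ∞) ≤
      Module.length O (cok O A (MonoidAlgebra O G)) + r := by
  set κ := ResidueField O with hκ
  set F := homRes O (p := p) f with hF
  have hFm : ∀ g h, F (g * h) = F g + F h := by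
    intro g h
    funext i
    change ZMod.castHom (dvd_refl p) κ (f (g * h) i) = _
    rw [hf, Pi.add_apply, map_add]
    rfl
  set D := der O F with hD
  -- the target
  let T := Fin d → cok O A (Triv O G κ)
  have hκkill : ∀ o ∈ maximalIdeal O, ∀ x : κ, o • x = 0 := by
    intro o ho x
    rw [Algebra.smul_def]
    have h1 : algebraMap O κ o = 0 := (residue_eq_zero_iff o).2 ho
    rw [h1, zero_mul]
  have hTkill : ∀ o ∈ maximalIdeal O, ∀ t : T, o • t = 0 := by
    intro o ho t
    funext i
    obtain ⟨x, hx⟩ := Submodule.Quotient.mk_surjective _ (t i)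
    rw [Pi.smul_apply, ← hx, ← Submodule.Quotient.mk_smul]
    have h1 : o • x = 0 := by
      funext j
      exact hκkill o ho (x j)
    rw [h1, Submodule.Quotient.mk_zero]
    rfl
  -- the sublattice
  set W := LinearMap.ker (powMap O (augTriv O G) b) with hW
  have hmemW : ∀ v : Fin b → MonoidAlgebra O G, v ∈ W ↔ ∀ i, aug O G (v i) = 0 := by
    intro v
    rw [hW, LinearMap.mem_ker]
    exact ⟨fun h i => congrFun h i, fun h => funext h⟩
  -- the map to the target
  let Db : (Fin b → MonoidAlgebra O G) →ₗ[O] (Fin d → Fin b → Triv O G κ) :=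
    { toFun := fun v i l => D (v l) i
      map_add' := fun v w => by
        funext i l
        change D (v l + w l) i = _
        rw [map_add]
        rfl
      map_smul' := fun o v => by
        funext i l
        change D (o • v l) i = _
        rw [map_smul]
        rfl }
  let Ψ₀ : (Fin d → Fin b → Triv O G κ) →ₗ[O] T :=
    (LinearMap.range (act (O := O) A (Triv O G κ))).mkQ.compLeft (Fin d)
  let Ψ : (Fin b → MonoidAlgebra O G) →ₗ[O] T := Ψ₀ ∘ₗ Db
  -- the action on vectors in the augmentation ideal
  have hΨA : ∀ y : Fin (b + r) → MonoidAlgebra O G, (∀ j, aug O G (y j) = 0) →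
      Ψ (act (O := O) A (MonoidAlgebra O G) y) = 0 := by
    intro y hy
    funext i
    change (LinearMap.range (act (O := O) A (Triv O G κ))).mkQ (Db (act (O := O) A (MonoidAlgebra O G) y) i) = 0
    rw [Submodule.mkQ_apply, Submodule.Quotient.mk_eq_zero]
    refine ⟨fun j => D (y j) i, ?_⟩
    funext l
    change ∑ j, aug O G (A l j) • (D (y j) i : κ) = D (act (O := O) A (MonoidAlgebra O G) y l) i
    rw [act_apply, map_sum, Finset.sum_apply]
    refine Finset.sum_congr rfl fun j _ => ?_
    rw [smul_eq_mul, hD, der_mul F hFm, hy j, zero_smul, add_zero]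
    rfl
  -- surjectivity
  have hF1 : F 1 = 0 := by
    have h1 := hFm 1 1
    rw [mul_one] at h1
    exact left_eq_add.1 h1
  have hDs : ∀ z : Fin d → κ, ∃ x, aug O G x = 0 ∧ D x = z := by
    intro z
    choose g hg using fun i : Fin d => hfs (Pi.single i 1)
    choose a ha using fun i : Fin d => residue_surjective (R := O) (z i)
    refine ⟨∑ i, a i • (MonoidAlgebra.single (g i) 1 - 1), ?_, ?_⟩
    · rw [map_sum]
      refine Finset.sum_eq_zero fun i _ => ?_
      rw [Algebra.smul_def, map_mul, map_sub, aug_single, map_one, sub_self, mul_zero]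
    · rw [map_sum]
      have h1 : ∀ i, D (a i • (MonoidAlgebra.single (g i) 1 - 1)) = Pi.single i (z i) := by
        intro i
        have h2 : (1 : MonoidAlgebra O G) = MonoidAlgebra.single 1 1 := rfl
        rw [map_smul, map_sub, h2, hD, der_single, der_single, one_smul, one_smul, hF1, sub_zero]
        funext l
        change a i • ZMod.castHom (dvd_refl p) κ (f (g i) l) = _
        rw [hg, ← ha i]
        by_cases hl : l = i
        · subst hl
          rw [Pi.single_eq_same, Pi.single_eq_same, map_one, Algebra.smul_def, mul_one]
          rfl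
        · rw [Pi.single_eq_of_ne hl, Pi.single_eq_of_ne hl, map_zero, smul_zero]
      simp only [h1]
      exact Finset.univ_sum_single z
  have hΨs : ∀ t : T, ∃ w ∈ W, Ψ w = t := by
    intro t
    choose z hz using fun i : Fin d => Submodule.mkQ_surjective _ (t i)
    choose x hx1 hx2 using fun l : Fin b => hDs (fun i => z i l)
    refine ⟨x, (hmemW x).2 hx1, ?_⟩
    funext i
    rw [← hz i]
    change (LinearMap.range (act (O := O) A (Triv O G κ))).mkQ (Db x i) = _
    congr 1
    funext l
    exact congrFun (hx2 l) i
  -- the kernel over `O`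
  set a := act (O := O) A (Triv O G O) with ha
  have hfreeT : Module.Free O (Triv O G O) := inferInstanceAs (Module.Free O O)
  have hrT : ∀ n : ℕ, finrank O (Fin n → Triv O G O) = n := by
    intro n
    have h1 : finrank O (Fin n → O) = n := by rw [Module.finrank_pi, Fintype.card_fin]
    exact h1
  have hU : finrank O (LinearMap.ker a) = r := by
    have h1 := finrank_ker hO a hY
    rw [hrT, hrT] at h1
    omega
  have hfinU : Module.Finite O (LinearMap.ker a) := inferInstance
  have hfreeU : Module.Free O (LinearMap.ker a) := inferInstance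
  let u : Basis (Fin r) O (LinearMap.ker a) := Module.finBasisOfFinrankEq O (LinearMap.ker a) hU
  choose Y hYu using fun i : Fin r => powMap_surjective (O := O) (b := b + r) (augTriv O G) augTriv_surjective (u i : _)
  set t : Fin r → T := fun i => Ψ (act (O := O) A (MonoidAlgebra O G) (Y i)) with ht
  set S := Submodule.span O (Set.range t) with hS
  have hSlen : Module.length O S ≤ r := length_span_le hTkill t
  -- the maps
  let Ψ' : W →ₗ[O] (T ⧸ S) := S.mkQ ∘ₗ Ψ ∘ₗ W.subtype
  let g : W →ₗ[O] cok O A (MonoidAlgebra O G) :=
    (LinearMap.range (act (O := O) A (MonoidAlgebra O G))).mkQ ∘ₗ W.subtype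
  have hΨ's : Function.Surjective Ψ' := by
    intro x
    obtain ⟨t', rfl⟩ := Submodule.mkQ_surjective S x
    obtain ⟨w, hw, rfl⟩ := hΨs t'
    exact ⟨⟨w, hw⟩, rfl⟩
  have hker : LinearMap.ker g ≤ LinearMap.ker Ψ' := by
    rintro ⟨w, hw⟩ hgw
    rw [LinearMap.mem_ker] at hgw ⊢
    have h1 : w ∈ LinearMap.range (act (O := O) A (MonoidAlgebra O G)) := (Submodule.Quotient.mk_eq_zero _).1 hgw
    obtain ⟨y, rfl⟩ := h1
    have h2 : powMap O (augTriv O G) (b + r) y ∈ LinearMap.ker a := by
      rw [LinearMap.mem_ker, ha, ← powMap_act]
      exact hw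
    set c := u.repr ⟨_, h2⟩ with hc
    have h3 : powMap O (augTriv O G) (b + r) y = ∑ i, c i • powMap O (augTriv O G) (b + r) (Y i) := by
      have h4 := congrArg Subtype.val (u.sum_repr ⟨_, h2⟩)
      rw [← hc] at h4
      rw [Submodule.coe_sum] at h4
      refine h4.symm.trans ?_
      refine Finset.sum_congr rfl fun i _ => ?_
      rw [hYu]
      rfl
    have h5 : ∀ j, aug O G ((y - ∑ i, c i • Y i) j) = 0 := by
      intro j
      have h6 : powMap O (augTriv O G) (b + r) (y - ∑ i, c i • Y i) = 0 := by
        rw [map_sub, map_sum, h3, sub_eq_zero]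
        exact Finset.sum_congr rfl fun i _ => (map_smul _ _ _).symm
      exact congrFun h6 j
    have h7 := hΨA _ h5
    rw [map_sub, map_sum, map_sub, map_sum, sub_eq_zero] at h7
    change S.mkQ (Ψ (act (O := O) A (MonoidAlgebra O G) y)) = 0
    rw [h7, Submodule.mkQ_apply, Submodule.Quotient.mk_eq_zero]
    refine Submodule.sum_mem _ fun i _ => ?_
    rw [map_smul, map_smul]
    exact S.smul_mem _ (Submodule.subset_span ⟨i, rfl⟩)
  set q := cokMap O A (augTriv O G) with hq
  have hgq : LinearMap.range g ≤ LinearMap.ker q := by
    rintro _ ⟨⟨w, hw⟩, rfl⟩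
    rw [LinearMap.mem_ker]
    change Submodule.Quotient.mk (powMap O (augTriv O G) b w) = _
    have h1 : powMap O (augTriv O G) b w = 0 := hw
    rw [h1, Submodule.Quotient.mk_zero]
  have e1 : Module.length O (T ⧸ S) ≤ Module.length O (LinearMap.ker q) := by
    have h1 : Module.length O (T ⧸ S) ≤ Module.length O (W ⧸ LinearMap.ker g) := by
      refine Module.length_le_of_surjective ((LinearMap.ker g).liftQ Ψ' hker) ?_
      intro x
      obtain ⟨w, rfl⟩ := hΨ's x
      exact ⟨Submodule.Quotient.mk w, rfl⟩
    rw [LinearEquiv.length_eq g.quotKerEquivRange] at h1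
    exact h1.trans (Module.length_le_of_injective (Submodule.inclusion hgq) (Submodule.inclusion_injective hgq))
  have e2 := Module.length_eq_add_of_exact (LinearMap.ker q).subtype q (Submodule.injective_subtype _)
    (cokMap_surjective A _ augTriv_surjective) (LinearMap.exact_subtype_ker_map q)
  have e3 := Module.length_eq_add_of_exact S.subtype S.mkQ (Submodule.injective_subtype _)
    (Submodule.mkQ_surjective _) (LinearMap.exact_subtype_mkQ S)
  have e4 : Module.length O T = d * Module.length O (cok O A (Triv O G κ)) := by
    change Module.length O (Fin d → cok O A (Triv O G κ)) = _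
    rw [Module.length_pi]
    simp
  have hfinκ : Module.Finite O (Triv O G κ) := by
    have : Module.Finite O κ := Module.Finite.of_surjective (Algebra.linearMap O κ) residue_surjective
    exact this
  have hntκ : Nontrivial (Triv O G κ) := inferInstanceAs (Nontrivial κ)
  have e5 := rk_le_length_cok (p := p) hG A (Triv O G κ)
  rw [e2, add_comm (Module.length O (LinearMap.ker q)), add_assoc]
  refine add_le_add le_rfl ?_
  calc (d : ℕ∞) * (rk O (cok O A (Triv O G O)) : ℕ∞) ≤ d * Module.length O (cok O A (Triv O G κ)) :=
        mul_le_mul_right e5 _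
    _ = Module.length O T := e4.symm
    _ = Module.length O S + Module.length O (T ⧸ S) := e3
    _ ≤ r + Module.length O (LinearMap.ker q) := add_le_add hSlen e1
    _ = _ := add_comm _ _

end main

end Pool.Agent.Q50.MU
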