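import Pool.Agent.Q50.MU.Lat

/-!
# Injective transfer maps and surjective norm maps
-/

set_option autoImplicit false
set_option maxHeartbeats 4000000
set_option synthInstance.maxHeartbeats 400000

namespace Pool.Agent.Q50.MU

open Module TensorProduct IsLocalRing Pool.Agent.Q173.MU

section

variable {O : Type} [CommRing O]

lemma length_ker_eq {Y : Type} [AddCommGroup Y] [Module O Y] (hY : Module.length O Y ≠ ⊤) (T : Y →ₗ[O] Y) :
    Module.length O (LinearMap.ker T) = Module.length O (Y ⧸ LinearMap.range T) := by
  have h1 := Module.length_eq_add_of_exact (LinearMap.ker T).subtype T.rangeRestrict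
    (Submodule.injective_subtype _) T.surjective_rangeRestrict (by
      intro x
      rw [← LinearMap.mem_ker, LinearMap.ker_rangeRestrict]
      exact ⟨fun h => ⟨⟨x, h⟩, rfl⟩, fun ⟨y, hy⟩ => hy ▸ y.2⟩)
  have h2 := Module.length_eq_add_of_exact (LinearMap.range T).subtype (LinearMap.range T).mkQ
    (Submodule.injective_subtype _) (Submodule.mkQ_surjective _) (LinearMap.exact_subtype_mkQ _)
  have h3 : Module.length O (LinearMap.range T) ≠ ⊤ := by
    intro h
    rw [h, top_add] at h2
    exact hY h2
  rw [h1, add_comm] at h2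
  exact (ENat.addLECancellable_of_ne_top h3).inj.1 h2

/-- the map `y ↦ 1 ⊗ y` -/
lemma mk_surjective [IsLocalRing O] {Y : Type} [AddCommGroup Y] [Module O Y] :
    Function.Surjective (TensorProduct.mk O (ResidueField O) Y 1) := by
  intro t
  induction t with
  | zero => exact ⟨0, map_zero _⟩
  | tmul a x =>
    obtain ⟨a, rfl⟩ := residue_surjective a
    refine ⟨a • x, ?_⟩
    rw [map_smul, TensorProduct.mk_apply, TensorProduct.smul_tmul']
    congr 1
    rw [Algebra.smul_def, mul_one]
    rfl
  | add s t hs ht =>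
    obtain ⟨x, rfl⟩ := hs
    obtain ⟨y, rfl⟩ := ht
    exact ⟨x + y, map_add _ _ _⟩

lemma rk_le_length_coker [IsLocalRing O] {Y : Type} [AddCommGroup Y] [Module O Y] [Module.Finite O Y] {d : O}
    (hd : d ∈ maximalIdeal O) :
    (rk O Y : ℕ∞) ≤ Module.length O (Y ⧸ LinearMap.range (LinearMap.lsmul O Y d)) := by
  rw [← length_residue_tensor]
  have hle : LinearMap.range (LinearMap.lsmul O Y d) ≤ LinearMap.ker (TensorProduct.mk O (ResidueField O) Y 1) := by
    rintro _ ⟨y, rfl⟩
    rw [LinearMap.mem_ker, LinearMap.lsmul_apply, map_smul, TensorProduct.mk_apply, TensorProduct.smul_tmul']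
    have h3 : d • (1 : ResidueField O) = 0 := by
      rw [Algebra.smul_def, mul_one]
      exact (residue_eq_zero_iff _).2 hd
    rw [h3, TensorProduct.zero_tmul]
  refine Module.length_le_of_surjective ((LinearMap.range (LinearMap.lsmul O Y d)).liftQ _ hle) ?_
  intro t
  obtain ⟨y, rfl⟩ := mk_surjective (O := O) t
  exact ⟨Submodule.Quotient.mk y, rfl⟩

/-- The kernel of the norm contains the image of the torsion. -/
lemma length_ge_of_transfer {X Y : Type} [AddCommGroup X] [Module O X] [AddCommGroup Y] [Module O Y]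
    (j : Y →ₗ[O] X) (N : X →ₗ[O] Y) (d : O) (hj : Function.Injective j) (hN : Function.Surjective N)
    (hd : ∀ y, N (j y) = d • y) :
    Module.length O Y + Module.length O (LinearMap.ker (LinearMap.lsmul O Y d)) ≤ Module.length O X := by
  have h1 := Module.length_eq_add_of_exact (LinearMap.ker N).subtype N
    (Submodule.injective_subtype _) hN (LinearMap.exact_subtype_ker_map N)
  rw [h1, add_comm]
  refine add_le_add ?_ le_rfl
  let f : LinearMap.ker (LinearMap.lsmul O Y d) →ₗ[O] LinearMap.ker N :=
    LinearMap.codRestrict (LinearMap.ker N) (j ∘ₗ (LinearMap.ker (LinearMap.lsmul O Y d)).subtype) (by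
      intro y
      rw [LinearMap.mem_ker]
      change N (j y) = 0
      rw [hd]
      exact y.2)
  refine Module.length_le_of_injective f ?_
  intro a b h
  have h2 : j a = j b := congrArg Subtype.val h
  exact Subtype.ext (hj h2)

/-- **Growth for transfers.** -/
theorem length_ge_of_dvd [IsLocalRing O] {p : ℕ} [CharP (ResidueField O) p] {X Y : Type} [AddCommGroup X]
    [Module O X] [AddCommGroup Y] [Module O Y] [Module.Finite O Y] (hY : Module.length O Y ≠ ⊤)
    (j : Y →ₗ[O] X) (N : X →ₗ[O] Y) (d : ℕ) (hj : Function.Injective j) (hN : Function.Surjective N)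
    (hd : ∀ y, N (j y) = (d : O) • y) (hp : p ∣ d) :
    Module.length O Y + (rk O Y : ℕ∞) ≤ Module.length O X := by
  refine le_trans ?_ (length_ge_of_transfer j N (d : O) hj hN hd)
  rw [length_ker_eq hY]
  refine add_le_add le_rfl (rk_le_length_coker ?_)
  rw [← residue_eq_zero_iff, map_natCast]
  exact (CharP.cast_eq_zero_iff (ResidueField O) p d).2 hp

/-- **Doubling.** -/
theorem length_ge_double {X Y : Type} [AddCommGroup X] [Module O X] [AddCommGroup Y] [Module O Y]
    (j : Y →ₗ[O] X) (N : X →ₗ[O] Y) (d : O) (hj : Function.Injective j) (hN : Function.Surjective N)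
    (hd : ∀ y, N (j y) = d • y) (hY : ∀ y : Y, d • y = 0) :
    2 * Module.length O Y ≤ Module.length O X := by
  have h1 := length_ge_of_transfer j N d hj hN hd
  have h2 : LinearMap.ker (LinearMap.lsmul O Y d) = ⊤ := by
    rw [eq_top_iff]
    intro y _
    exact hY y
  rw [h2, Module.length_top] at h1
  rwa [two_mul]

end

end Pool.Agent.Q50.MU
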