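import Pool.Agent.Q50.MU.Deg
import Pool.Agent.Q50.MU.Der
import Pool.Agent.Q50.MU.Count
import Pool.Agent.Q50.MU.Transfer

/-!
# Growth of `μ`-invariants and growth of class numbers
-/

set_option autoImplicit false
set_option maxHeartbeats 4000000
set_option synthInstance.maxHeartbeats 400000

namespace Pool.Agent.Q50.MU

open Module Pool.Agent.Q173.MU IsLocalRing

/-- The intersection of `L` with the cyclotomic `ℤ_p`-extension of `F` is `F`. -/
def IsDisj (p : ℕ) (F L : IntermediateField ℚ ℂ) : Prop := ∀ m K, IsLayer p m F K → L ⊓ K = F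

/-- For a function `v` on the number fields: the values at the layers `F_m` of `F` are `O(m)`. -/
def IsSmall (p : ℕ) (v : IntermediateField ℚ ℂ → ℝ) (F : IntermediateField ℚ ℂ) : Prop :=
  ∃ C : ℝ, ∀ m K, IsLayer p m F K → v K ≤ C * (m + 1)

/-- `v(L F_m) ≥ v(F_m) + c [F_m : F] - O(m)`. -/
def GrowsBy (p : ℕ) (v : IntermediateField ℚ ℂ → ℝ) (F L : IntermediateField ℚ ℂ) (c : ℝ) : Prop :=
  ∃ C : ℝ, ∀ m K, IsLayer p m F K → v K + c * deg F K - C * (m + 1) ≤ v (L ⊔ K)

/-- `v(L F_m) ≤ v(F_m) + c [F_m : F]` for infinitely many `m`. -/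
def SmallGrowth (p : ℕ) (v : IntermediateField ℚ ℂ → ℝ) (F L : IntermediateField ℚ ℂ) (c : ℝ) : Prop :=
  ∀ M : ℕ, ∃ m ≥ M, ∃ K, IsLayer p m F K ∧ v (L ⊔ K) ≤ v K + c * deg F K

/-- `v(F_m) = μ [F_m : F] + O(m)`. -/
def HasFormula (p : ℕ) (v : IntermediateField ℚ ℂ → ℝ) (F : IntermediateField ℚ ℂ) (μ : ℕ) : Prop :=
  ∃ C : ℝ, ∀ m K, IsLayer p m F K → |v K - μ * deg F K| ≤ C * (m + 1)

section

variable {p : ℕ} [hp : Fact p.Prime] {v : IntermediateField ℚ ℂ → ℝ} {F L : IntermediateField ℚ ℂ}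

/-- linear functions are smaller than the degrees of the layers -/
lemma exists_small (hF : FiniteDimensional ℚ F) (C ε : ℝ) (hε : 0 < ε) :
    ∃ M : ℕ, ∀ m ≥ M, ∀ K, IsLayer p m F K → C * (m + 1) < ε * deg F K := by
  have hp1 : (1 : ℝ) < p := by exact_mod_cast hp.out.one_lt
  set d : ℝ := (Module.finrank ℚ F : ℝ) with hd
  have hd0 : 0 < d := by
    rw [hd]
    exact_mod_cast Module.finrank_pos
  have h1 : Filter.Tendsto (fun m : ℕ => ((m : ℝ) + 1) / (p : ℝ) ^ m) Filter.atTop (nhds 0) := by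
    have h2 := tendsto_pow_const_div_const_pow_of_one_lt 1 hp1
    have h3 := tendsto_pow_const_div_const_pow_of_one_lt 0 hp1
    have h4 := h2.add h3
    rw [add_zero] at h4
    refine h4.congr (fun m => ?_)
    rw [pow_one, pow_zero, ← add_div]
  have h5 : ∃ M : ℕ, ∀ m ≥ M, ((m : ℝ) + 1) / (p : ℝ) ^ m < ε / (d * (|C| + 1)) := by
    have h6 : 0 < ε / (d * (|C| + 1)) := by positivity
    exact Filter.eventually_atTop.1 (h1.eventually (gt_mem_nhds h6))
  obtain ⟨M, hM⟩ := h5
  refine ⟨M, fun m hm K hK => ?_⟩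
  have h7 := hM m hm
  have hpm : (0 : ℝ) < (p : ℝ) ^ m := pow_pos (by linarith) m
  rw [div_lt_iff₀ hpm, div_mul_eq_mul_div, lt_div_iff₀ (by positivity)] at h7
  have h8 : (p : ℝ) ^ m ≤ deg F K * d := by
    have := layer_deg hp.out hF hK
    rw [hd]
    exact_mod_cast this
  have h10 : C ≤ |C| + 1 := by linarith [le_abs_self C]
  have hm0 : (0 : ℝ) ≤ (m : ℝ) + 1 := by positivity
  have h11 : ((m : ℝ) + 1) * (|C| + 1) * d < ε * deg F K * d := by
    calc ((m : ℝ) + 1) * (|C| + 1) * d = (↑m + 1) * (d * (|C| + 1)) := by ring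
      _ < ε * (p : ℝ) ^ m := h7
      _ ≤ ε * (deg F K * d) := mul_le_mul_of_nonneg_left h8 hε.le
      _ = ε * deg F K * d := by ring
  have h12 := lt_of_mul_lt_mul_right h11 hd0.le
  calc C * (m + 1) ≤ (|C| + 1) * (m + 1) := mul_le_mul_of_nonneg_right h10 hm0
    _ = ((m : ℝ) + 1) * (|C| + 1) := by ring
    _ < ε * deg F K := h12

/-- `v` is small on the layers if and only if `μ = 0`. -/
lemma isSmall_iff (hl : HasLayers p) (hF : FiniteDimensional ℚ F) {μ : ℕ} (h : HasFormula p v F μ) :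
    IsSmall p v F ↔ μ = 0 := by
  obtain ⟨C, hC⟩ := h
  constructor
  · rintro ⟨B, hB⟩
    by_contra hne
    have hpos : (1 : ℝ) ≤ μ := by
      have : 1 ≤ μ := Nat.one_le_iff_ne_zero.2 hne
      exact_mod_cast this
    obtain ⟨M, hM⟩ := exists_small (p := p) hF (C + B) 1 one_pos
    obtain ⟨K, hK⟩ := hl.exists M F
    have h1 := hM M le_rfl K hK
    have h2 := (abs_le.1 (hC M K hK)).1
    have h3 := hB M K hK
    have h4 : (deg F K : ℝ) ≤ μ * deg F K := by
      nlinarith [(Nat.cast_nonneg (deg F K) : (0 : ℝ) ≤ _)]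
    nlinarith
  · intro h0
    refine ⟨C, fun m K hK => ?_⟩
    have h2 := (abs_le.1 (hC m K hK)).2
    rw [h0, Nat.cast_zero, zero_mul, sub_zero] at h2
    exact h2

/-- Growth of `μ` gives growth of `v`. -/
lemma growsBy_of (hFL : F ≤ L) (hL : FiniteDimensional ℚ L) (hd : IsDisj p F L) {μ ν : ℕ} (hF : HasFormula p v F μ)
    (hL' : HasFormula p v L ν) {c : ℝ} (h : (μ : ℝ) + c ≤ ν) : GrowsBy p v F L c := by
  obtain ⟨C, hC⟩ := hF
  obtain ⟨C', hC'⟩ := hL'
  refine ⟨C + C', fun m K hK => ?_⟩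
  have h1 := (abs_le.1 (hC m K hK)).2
  have h2 := (abs_le.1 (hC' m (L ⊔ K) (layer_sup hFL hK))).1
  rw [deg_sup hFL hL hK (hd m K hK)] at h2
  have h3 : ((μ : ℝ) + c) * deg F K ≤ ν * deg F K := mul_le_mul_of_nonneg_right h (Nat.cast_nonneg _)
  linarith

/-- If `v` grows then the growth is not small. -/
lemma not_smallGrowth (hF : FiniteDimensional ℚ F) {c c' : ℝ} (hc : c < c') (h : GrowsBy p v F L c') :
    ¬ SmallGrowth p v F L c := by
  intro hs
  obtain ⟨C, hC⟩ := h
  obtain ⟨M, hM⟩ := exists_small (p := p) hF C (c' - c) (by linarith)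
  obtain ⟨m, hm, K, hK, hv⟩ := hs M
  have h1 := hM m hm K hK
  have h2 := hC m K hK
  linarith

/-- If both `μ`-invariants are zero then the growth is small. -/
lemma smallGrowth_of (hl : HasLayers p) (hFL : F ≤ L) (hF : FiniteDimensional ℚ F) (h0 : HasFormula p v F 0)
    (h1 : HasFormula p v L 0) {c : ℝ} (hc : 0 < c) : SmallGrowth p v F L c := by
  obtain ⟨C, hC⟩ := h0
  obtain ⟨C', hC'⟩ := h1
  intro N
  obtain ⟨M, hM⟩ := exists_small (p := p) hF (C + C') c hc
  obtain ⟨K, hK⟩ := hl.exists (max M N) F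
  refine ⟨max M N, le_max_right _ _, K, hK, ?_⟩
  have h2 := (abs_le.1 (hC _ K hK)).1
  have h3 := (abs_le.1 (hC' _ (L ⊔ K) (layer_sup hFL hK))).2
  have h4 := hM (max M N) (le_max_left _ _) K hK
  rw [Nat.cast_zero, zero_mul, sub_zero] at h2 h3
  nlinarith

end

section data

/-- The ring `O` is a principal ideal domain of characteristic zero (so it is a discrete valuation ring, with prime element
`p` for the localisation of the Iwasawa algebra at `(p)`). -/
def IsDvr (O : Type) [CommRing O] : Prop := IsDomain O ∧ IsPrincipalIdealRing O ∧ CharZero O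

lemma not_isField {O : Type} [CommRing O] [IsLocalRing O] {p : ℕ} [hp : Fact p.Prime] [CharP (ResidueField O) p]
    (hO : IsDvr O) : ¬ IsField O := by
  intro hF
  have hc := hO.2.2
  have hd := hO.1
  have h1 : (p : O) ∈ maximalIdeal O := by
    rw [← residue_eq_zero_iff, map_natCast, CharP.cast_eq_zero]
  have h2 : (p : O) ≠ 0 := by
    exact_mod_cast hp.out.ne_zero
  obtain ⟨q, hq⟩ := hF.mul_inv_cancel h2
  have h3 : IsUnit (p : O) := IsUnit.of_mul_eq_one q hq
  exact (mem_maximalIdeal _).1 h1 h3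

/-- The length as a natural number. -/
noncomputable def len (O X : Type) [CommRing O] [AddCommGroup X] [Module O X] : ℕ := (Module.length O X).toNat

lemma len_eq {O X : Type} [CommRing O] [AddCommGroup X] [Module O X] (h : Module.length O X ≠ ⊤) :
    (len O X : ℕ∞) = Module.length O X := ENat.natCast_toNat h

/-- A module of length `n` over a local ring is killed by the `n`-th powers of the elements of the maximal ideal. -/
lemma pow_len_smul {O Y : Type} [CommRing O] [IsLocalRing O] [AddCommGroup Y] [Module O Y] [Module.Finite O Y]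
    (hY : Module.length O Y ≠ ⊤) {a : O} (ha : a ∈ maximalIdeal O) (y : Y) : a ^ len O Y • y = 0 := by
  set n := len O Y with hn
  by_contra hne
  let V : ℕ → Submodule O Y := fun i => LinearMap.range (LinearMap.lsmul O Y (a ^ i))
  have hle : ∀ i, V (i + 1) ≤ V i := by
    rintro i _ ⟨z, rfl⟩
    refine ⟨a • z, ?_⟩
    rw [LinearMap.lsmul_apply, LinearMap.lsmul_apply, smul_smul, ← pow_succ]
  have hanti : ∀ i j, i ≤ j → V j ≤ V i := fun i j hij => antitone_nat_of_succ_le hle hij
  have hbot : ∀ i ≤ n, V i ≠ ⊥ := by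
    intro i hi h0
    have h1 : a ^ n • y ∈ V n := ⟨y, rfl⟩
    have h2 := hanti i n hi h1
    rw [h0, Submodule.mem_bot] at h2
    exact hne h2
  have hlt : ∀ i ≤ n, V (i + 1) < V i := by
    intro i hi
    refine lt_of_le_of_ne (hle i) ?_
    intro heq
    apply hbot i hi
    have hfg : (V i).FG := by
      have h3 : V i = Submodule.map (LinearMap.lsmul O Y (a ^ i)) ⊤ := (Submodule.map_top _).symm
      rw [h3]
      exact (Module.Finite.fg_top).map _
    refine Submodule.eq_bot_of_le_smul_of_le_jacobson_bot (maximalIdeal O) (V i) hfg ?_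
      (maximalIdeal_le_jacobson _)
    rw [← heq]
    conv_rhs => rw [heq]
    rintro _ ⟨z, rfl⟩
    rw [LinearMap.lsmul_apply, pow_succ', mul_smul]
    exact Submodule.smul_mem_smul ha ⟨z, rfl⟩
  have h3 : ((n + 1 : ℕ) : ℕ∞) ≤ Module.length O Y := by
    refine le_length_of_chain (fun i => V (n + 1 - i)) (n + 1) ?_
    intro i hi
    change V (n + 1 - i) < V (n + 1 - (i + 1))
    have h4 := hlt (n - i) (by omega)
    have h5 : n + 1 - i = n - i + 1 := by omega
    have h6 : n + 1 - (i + 1) = n - i := by omega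
    rw [h5, h6]
    exact h4
  rw [← len_eq hY] at h3
  have h4 : n + 1 ≤ len O Y := by exact_mod_cast h3
  omega

/-- **Doubling.** If the degree is divisible by `p ^ μ` then `μ` doubles. -/
theorem two_len_le {O X Y : Type} [CommRing O] [IsLocalRing O] [AddCommGroup X] [Module O X] [AddCommGroup Y]
    [Module O Y] [Module.Finite O Y] {p : ℕ} [CharP (ResidueField O) p] (hX : Module.length O X ≠ ⊤)
    (hY : Module.length O Y ≠ ⊤) (j : Y →ₗ[O] X) (N : X →ₗ[O] Y) (d : ℕ) (hj : Function.Injective j)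
    (hN : Function.Surjective N) (hd : ∀ y, N (j y) = (d : O) • y) (hp : p ^ len O Y ∣ d) :
    2 * len O Y ≤ len O X := by
  have hpm : (p : O) ∈ maximalIdeal O := by
    rw [← residue_eq_zero_iff, map_natCast, CharP.cast_eq_zero]
  have h1 : ∀ y : Y, (d : O) • y = 0 := by
    intro y
    obtain ⟨q, rfl⟩ := hp
    push_cast
    rw [mul_comm, mul_smul, pow_len_smul hY hpm, smul_zero]
  have h2 := length_ge_double j N (d : O) hj hN hd h1
  rw [← len_eq hX, ← len_eq hY] at h2
  exact_mod_cast h2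

variable {O G X Y : Type} [CommRing O] [IsLocalRing O] [Group G] [Finite G] [AddCommGroup X] [Module O X]
  [AddCommGroup Y] [Module O Y] {p : ℕ} [Fact p.Prime] [CharP (ResidueField O) p]

/-- **Growth for square presentations.** -/
theorem len_ge_irr (hO : IsDvr O) (hG : IsPGroup p G) {b : ℕ} (h : IsPres O G X Y b b) (hX : Module.length O X ≠ ⊤)
    (hY : Module.length O Y ≠ ⊤) : len O Y + (irr G - 1) * rk O Y ≤ len O X := by
  have h1 := hO.1
  have h2 := hO.2.1
  have h3 := hO.2.2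
  have h4 := IsPres.length_ge (p := p) (not_isField (p := p) hO) hG h hX
  rw [← len_eq hX, ← len_eq hY] at h4
  exact_mod_cast h4

/-- `G` has a quotient `(ℤ/p)^d`. -/
def HasElemQuot (p d : ℕ) (G : Type) [Group G] : Prop :=
  ∃ f : G → (Fin d → ZMod p), (∀ g h, f (g * h) = f g + f h) ∧ Function.Surjective f

/-- **Growth for presentations with `r` more relations than generators.** -/
theorem len_add_ge (hO : IsDvr O) (hG : IsPGroup p G) {b r d : ℕ} (h : IsPres O G X Y b (b + r))
    (hX : Module.length O X ≠ ⊤) (hY : Module.length O Y ≠ ⊤) (hd : HasElemQuot p d G) :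
    len O Y + d * rk O Y ≤ len O X + r := by
  have h1 := hO.1
  have h2 := hO.2.1
  obtain ⟨A, ⟨e⟩, ⟨e'⟩⟩ := h
  obtain ⟨f, hf, hfs⟩ := hd
  have e2 := e'.trans (cokTrivEquiv A).symm
  have h3 : rk O Y = rk O (cok O A (Triv O G O)) :=
    LinearEquiv.finrank_eq (LinearEquiv.baseChange O (ResidueField O) _ _ e2)
  have h4 : Module.length O (cok O A (Triv O G O)) ≠ ⊤ := by
    rw [← LinearEquiv.length_eq e2]
    exact hY
  have h5 := length_cok_add_ge (p := p) (not_isField (p := p) hO) hG A f hf hfs h4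
  rw [← h3, ← LinearEquiv.length_eq e2, ← length_coker_eq, ← LinearEquiv.length_eq e, ← len_eq hX, ← len_eq hY] at h5
  exact_mod_cast h5

omit [Finite G] in
/-- a quotient `(ℤ/p)^d` implies that the order is divisible by `p ^ d`; so `d = 0` for the trivial group -/
lemma HasElemQuot.mono {d d' : ℕ} (h : HasElemQuot p d G) (hle : d' ≤ d) : HasElemQuot p d' G := by
  obtain ⟨f, hf, hfs⟩ := h
  refine ⟨fun g i => f g (Fin.castLE hle i), fun g h => ?_, fun z => ?_⟩
  · funext i
    change f (g * h) (Fin.castLE hle i) = f g (Fin.castLE hle i) + f h (Fin.castLE hle i)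
    rw [hf]
    rfl
  · obtain ⟨g, hg⟩ := hfs (fun i => if h : (i : ℕ) < d' then z ⟨i, h⟩ else 0)
    refine ⟨g, ?_⟩
    funext i
    change f g (Fin.castLE hle i) = z i
    rw [hg]
    change (if h : (i : ℕ) < d' then z ⟨i, h⟩ else 0) = z i
    rw [dif_pos i.2]

end data

end Pool.Agent.Q50.MU
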