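import Pool.Agent.Q50.MU.Chain

/-!
# Chains of left ideals of `ℚ[G]` and pure left ideals of `O[G]`
-/

set_option autoImplicit false
set_option maxHeartbeats 4000000
set_option synthInstance.maxHeartbeats 400000

namespace Pool.Agent.Q50.MU

open Module Matrix TensorProduct IsLocalRing Pool.Agent.Q173.MU

/-- The number of the irreducible constituents of the regular representation of `G` over `ℚ`, counted with
multiplicities: the length of `ℚ[G]` as a left module over itself. -/
noncomputable def irr (G : Type) [Group G] : ℕ :=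
  (Module.length (MonoidAlgebra ℚ G) (MonoidAlgebra ℚ G)).toNat

section ev

/-- The linear extension of the function `f` on the group. -/
noncomputable def ev (S K : Type) [CommRing S] [Field K] [Algebra S K] [Algebra ℚ K] {G : Type} [Group G]
    (f : G → ℚ) : MonoidAlgebra S G →ₗ[S] K :=
  (Finsupp.linearCombination S (fun g => algebraMap ℚ K (f g))) ∘ₗ (MonoidAlgebra.coeffLinearEquiv S).toLinearMap

variable {S K : Type} [CommRing S] [Field K] [Algebra S K] [Algebra ℚ K] {G : Type} [Group G]

lemma ev_single (f : G → ℚ) (g : G) (a : S) :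
    ev S K f (MonoidAlgebra.single g a) = a • algebraMap ℚ K (f g) := by
  change Finsupp.linearCombination S (fun g => algebraMap ℚ K (f g)) (Finsupp.single g a) = _
  rw [Finsupp.linearCombination_single]

lemma ev_single_mul (f : G → ℚ) (h : G) (a : S) (x : MonoidAlgebra S G) :
    ev S K f (MonoidAlgebra.single h a * x) = a • ev S K (fun g => f (h * g)) x := by
  induction x using MonoidAlgebra.induction with
  | zero => rw [mul_zero, map_zero, map_zero, smul_zero]
  | single_add g c x _ _ ih =>
    rw [mul_add, map_add, ih, map_add, MonoidAlgebra.single_mul_single, ev_single, ev_single, smul_add, mul_smul]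

lemma ev_int (f : G → ℚ) (z : MonoidAlgebra ℤ G) :
    ev S K f (MonoidAlgebra.mapRingHom G (Int.castRingHom S) z) =
      algebraMap ℚ K (ev ℚ ℚ f (MonoidAlgebra.mapRingHom G (Int.castRingHom ℚ) z)) := by
  induction z using MonoidAlgebra.induction with
  | zero => simp only [map_zero]
  | single_add g c x _ _ ih =>
    rw [map_add, map_add, map_add, map_add, map_add, ih, MonoidAlgebra.mapRingHom_single,
      MonoidAlgebra.mapRingHom_single, ev_single, ev_single, Algebra.smul_def, eq_intCast, map_intCast,
      Algebra.smul_def, map_mul, eq_intCast, map_intCast, map_intCast]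
    rfl

lemma aug_eq_ev [Nontrivial S] (x : MonoidAlgebra S G) : algebraMap S K (aug S G x) = ev S K (fun _ => 1) x := by
  induction x using MonoidAlgebra.induction with
  | zero => simp only [map_zero]
  | single_add g c x _ _ ih =>
    rw [map_add, map_add, map_add, ih, aug_single, ev_single, map_one, Algebra.smul_def, mul_one]

/-- Clearing denominators. -/
lemma exists_int (x : MonoidAlgebra ℚ G) : ∃ (N : ℤ) (z : MonoidAlgebra ℤ G), N ≠ 0 ∧
    MonoidAlgebra.mapRingHom G (Int.castRingHom ℚ) z = (N : ℚ) • x := by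
  induction x using MonoidAlgebra.induction with
  | zero => exact ⟨1, 0, one_ne_zero, by rw [map_zero, smul_zero]⟩
  | single_add g c x _ _ ih =>
    obtain ⟨N, z, hN, hz⟩ := ih
    refine ⟨N * c.den, MonoidAlgebra.single g (N * c.num) + (c.den : ℤ) • z, ?_, ?_⟩
    · exact mul_ne_zero hN (by exact_mod_cast c.den_ne_zero)
    · have h1 : (c.den : ℚ) * c = c.num := by
        rw [mul_comm]
        exact Rat.mul_den_eq_num c
      rw [map_add, MonoidAlgebra.mapRingHom_single, map_zsmul, hz, smul_add]
      congr 1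
      · rw [MonoidAlgebra.smul_single, smul_eq_mul]
        congr 1
        push_cast
        rw [mul_assoc, h1]
        simp
      · rw [← Int.cast_smul_eq_zsmul ℚ, smul_smul]
        congr 1
        push_cast
        ring

end ev

section pure

variable {O : Type} [CommRing O] (K : Type) [Field K] [Algebra O K] [Algebra ℚ K] {G : Type} [Group G]

/-- The pure left ideal of `O[G]` defined by a left ideal of `ℚ[G]`. -/
noncomputable def pureOf (O : Type) [CommRing O] (K : Type) [Field K] [Algebra O K] [Algebra ℚ K] {G : Type}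
    [Group G] (J : Submodule (MonoidAlgebra ℚ G) (MonoidAlgebra ℚ G)) :
    Submodule (MonoidAlgebra O G) (MonoidAlgebra O G) where
  carrier := {x | ∀ f : G → ℚ, (∀ y ∈ J, ev ℚ ℚ f y = 0) → ev O K f x = 0}
  add_mem' := by
    intro x y hx hy f hf
    rw [map_add, hx f hf, hy f hf, add_zero]
  zero_mem' := by
    intro f hf
    rw [map_zero]
  smul_mem' := by
    intro x y hy f hf
    rw [smul_eq_mul]
    induction x using MonoidAlgebra.induction with
    | zero => rw [zero_mul, map_zero]
    | single_add h a x _ _ ih =>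
      rw [add_mul, map_add, ih, add_zero, ev_single_mul]
      rw [hy (fun g => f (h * g)) ?_, smul_zero]
      intro y hy
      have h1 : ev ℚ ℚ f (MonoidAlgebra.single h 1 * y) = 0 := hf _ (J.smul_mem _ hy)
      rw [ev_single_mul, one_smul] at h1
      exact h1

lemma mem_pureOf {J : Submodule (MonoidAlgebra ℚ G) (MonoidAlgebra ℚ G)} {x : MonoidAlgebra O G} :
    x ∈ pureOf O K J ↔ ∀ f : G → ℚ, (∀ y ∈ J, ev ℚ ℚ f y = 0) → ev O K f x = 0 := Iff.rfl

lemma pureOf_pure (hK : Function.Injective (algebraMap O K)) (J : Submodule (MonoidAlgebra ℚ G) (MonoidAlgebra ℚ G)) :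
    Pure O (pureOf O K J) := by
  intro o x ho hx f hf
  have h1 := hx f hf
  rw [map_smul, Algebra.smul_def] at h1
  refine (mul_eq_zero.1 h1).resolve_left ?_
  intro h2
  exact ho (hK (by rw [h2, map_zero]))

/-- every functional is a function on the group -/
lemma exists_fun (f : MonoidAlgebra ℚ G →ₗ[ℚ] ℚ) (x : MonoidAlgebra ℚ G) :
    ev ℚ ℚ (fun g => f (MonoidAlgebra.single g 1)) x = f x := by
  induction x using MonoidAlgebra.induction with
  | zero => simp only [map_zero]
  | single_add g c x _ _ ih =>
    rw [map_add, map_add, ih, ev_single]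
    congr 1
    change c • f (MonoidAlgebra.single g 1) = _
    rw [← map_smul, MonoidAlgebra.smul_single, smul_eq_mul, mul_one]

lemma pureOf_lt {J J' : Submodule (MonoidAlgebra ℚ G) (MonoidAlgebra ℚ G)}
    (hlt : J < J') : pureOf O K J < pureOf O K J' := by
  refine lt_of_le_not_ge ?_ ?_
  · intro x hx f hf
    exact hx f (fun y hy => hf y (hlt.le hy))
  · intro hle
    obtain ⟨x, hxJ', hxJ⟩ := SetLike.exists_of_lt hlt
    obtain ⟨N, z, hN, hz⟩ := exists_int x
    have hNq : (N : ℚ) ≠ 0 := by exact_mod_cast hN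
    have h1 : (N : ℚ) • x ∈ J' := by
      have h2 : (N : ℚ) • x = (algebraMap ℚ (MonoidAlgebra ℚ G) (N : ℚ)) • x := by
        rw [smul_eq_mul, Algebra.smul_def]
      rw [h2]
      exact J'.smul_mem _ hxJ'
    have h3 : (N : ℚ) • x ∉ J.restrictScalars ℚ := by
      intro h
      apply hxJ
      have h4 := (J.restrictScalars ℚ).smul_mem (N : ℚ)⁻¹ h
      rwa [smul_smul, inv_mul_cancel₀ hNq, one_smul] at h4
    obtain ⟨f, hf1, hf2⟩ := Submodule.exists_le_ker_of_notMem h3
    have h5 : MonoidAlgebra.mapRingHom G (Int.castRingHom O) z ∈ pureOf O K J' := by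
      intro φ hφ
      rw [ev_int, hz, hφ _ h1, map_zero]
    have h6 := hle h5 (fun g => f (MonoidAlgebra.single g 1)) (fun y hy => by
      rw [exists_fun]
      exact hf2 hy)
    rw [ev_int, hz, exists_fun] at h6
    exact hf1 ((map_eq_zero (algebraMap ℚ K)).1 h6)

end pure

section chain

variable {G : Type} [Group G] [Finite G]

instance finite_self (k : Type) [Field k] : Module.Finite k (MonoidAlgebra k G) := finite_mon k G

lemma length_rat_ne_top : Module.length (MonoidAlgebra ℚ G) (MonoidAlgebra ℚ G) ≠ ⊤ := by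
  have h1 : IsNoetherian ℚ (MonoidAlgebra ℚ G) := inferInstance
  have h2 : IsArtinian ℚ (MonoidAlgebra ℚ G) := inferInstance
  have h3 : IsNoetherian (MonoidAlgebra ℚ G) (MonoidAlgebra ℚ G) := isNoetherian_of_tower ℚ h1
  have h4 : IsArtinian (MonoidAlgebra ℚ G) (MonoidAlgebra ℚ G) := isArtinian_of_tower ℚ h2
  exact Module.length_ne_top

lemma irr_eq : (irr G : ℕ∞) = Module.length (MonoidAlgebra ℚ G) (MonoidAlgebra ℚ G) :=
  ENat.natCast_toNat length_rat_ne_top

/-- The augmentation ideal has one constituent less. -/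
lemma length_augIdeal : Module.length (MonoidAlgebra ℚ G) (LinearMap.ker (augTriv ℚ G)) + 1 = irr G := by
  rw [irr_eq]
  have h1 := Module.length_eq_add_of_exact (LinearMap.ker (augTriv ℚ G)).subtype (augTriv ℚ G)
    (Submodule.injective_subtype _) augTriv_surjective (LinearMap.exact_subtype_ker_map _)
  rw [h1]
  congr 1
  symm
  rw [Module.length_eq_one_iff]
  have h2 : Module.length ℚ (Triv ℚ G ℚ) = 1 := Module.length_eq_one ℚ ℚ
  have h3 : IsSimpleModule ℚ (Triv ℚ G ℚ) := Module.length_eq_one_iff.1 h2
  have h4 : Nontrivial (Triv ℚ G ℚ) := inferInstanceAs (Nontrivial ℚ)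
  rw [isSimpleModule_iff]
  refine { exists_pair_ne := ⟨⊥, ⊤, bot_ne_top⟩, eq_bot_or_eq_top := fun V => ?_ }
  rcases IsSimpleOrder.eq_bot_or_eq_top (V.restrictScalars ℚ) with h | h
  · exact Or.inl ((Submodule.restrictScalars_eq_bot_iff _ _ _).1 h)
  · exact Or.inr ((Submodule.restrictScalars_eq_top_iff _ _ _).1 h)

/-- A chain of left ideals in the augmentation ideal. -/
lemma exists_chain : ∃ J : ℕ → Submodule (MonoidAlgebra ℚ G) (MonoidAlgebra ℚ G),
    (∀ i < irr G - 1, J i < J (i + 1)) ∧ ∀ x ∈ J (irr G - 1), aug ℚ G x = 0 := by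
  have h1 := length_augIdeal (G := G)
  have h2 : Module.length (MonoidAlgebra ℚ G) (LinearMap.ker (augTriv ℚ G)) = ((irr G - 1 : ℕ) : ℕ∞) := by
    have h3 : Module.length (MonoidAlgebra ℚ G) (LinearMap.ker (augTriv ℚ G)) ≠ ⊤ := by
      intro h4
      rw [h4, top_add] at h1
      exact ENat.natCast_ne_top _ h1.symm
    rw [← ENat.natCast_toNat h3] at h1 ⊢
    norm_cast at h1 ⊢
    omega
  rw [Module.length_submodule] at h2
  obtain ⟨s, hs1, hs2⟩ := Order.exists_series_of_height_eq_coe _ h2
  refine ⟨fun i => s.toFun ⟨min i s.length, by omega⟩, ?_, ?_⟩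
  · intro i hi
    apply s.strictMono
    rw [Fin.lt_def]
    change min i s.length < min (i + 1) s.length
    omega
  · intro x hx
    have h3 : s.toFun ⟨min (irr G - 1) s.length, by omega⟩ = s.last := by
      rw [RelSeries.last]
      congr 1
      apply Fin.ext
      change min (irr G - 1) s.length = s.length
      omega
    have hx' : x ∈ s.toFun ⟨min (irr G - 1) s.length, by omega⟩ := hx
    rw [h3, hs1] at hx'
    exact hx'

end chain

section main

variable {O : Type} [CommRing O] [IsDomain O] [IsPrincipalIdealRing O] [IsLocalRing O] [CharZero O] {G : Type}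
  [Group G] [Finite G] {p : ℕ} [Fact p.Prime] [CharP (ResidueField O) p] {b : ℕ}

/-- **Main theorem on square matrices.** -/
theorem length_cok_ge_irr (hO : ¬ IsField O) (hG : IsPGroup p G) (A : Matrix (Fin b) (Fin b) (MonoidAlgebra O G))
    (h : Module.length O (cok O A (MonoidAlgebra O G)) ≠ ⊤) :
    Module.length O (cok O A (Triv O G O)) + ((irr G - 1 : ℕ) : ℕ∞) * (rk O (cok O A (Triv O G O)) : ℕ∞) ≤
      Module.length O (cok O A (MonoidAlgebra O G)) := by
  have hK : Function.Injective (algebraMap O (FractionRing O)) := IsFractionRing.injective O (FractionRing O)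
  have hc : CharZero (FractionRing O) := charZero_of_injective_algebraMap hK
  obtain ⟨J, hJ1, hJ2⟩ := exists_chain (G := G)
  refine length_cok_ge (p := p) hO hG A h (fun i => pureOf O (FractionRing O) (J i)) (irr G - 1)
    (fun i _ => pureOf_pure _ hK _) (fun i hi => pureOf_lt _ (hJ1 i hi)) ?_
  intro x hx
  apply hK
  rw [map_zero, aug_eq_ev]
  refine hx _ (fun y hy => ?_)
  rw [← aug_eq_ev, hJ2 y hy, map_zero]

omit [IsDomain O] [IsPrincipalIdealRing O] [IsLocalRing O] [CharZero O] [Finite G] in
lemma range_kmap {c : ℕ} (A : Matrix (Fin b) (Fin c) (MonoidAlgebra O G)) :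
    LinearMap.range (kmap A) = LinearMap.range (act (O := O) A (MonoidAlgebra O G)) := by
  congr 1

omit [IsDomain O] [IsPrincipalIdealRing O] [IsLocalRing O] [CharZero O] [Finite G] in
lemma length_coker_eq {c : ℕ} (A : Matrix (Fin b) (Fin c) (MonoidAlgebra O G)) :
    Module.length O ((Fin b → MonoidAlgebra O G) ⧸ LinearMap.range (kmap A)) =
      Module.length O (cok O A (MonoidAlgebra O G)) := by
  rw [range_kmap]

omit [IsDomain O] [IsPrincipalIdealRing O] [IsLocalRing O] [CharZero O] [Finite G] in
lemma act_triv {c : ℕ} (A : Matrix (Fin b) (Fin c) (MonoidAlgebra O G)) :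
    act (O := O) A (Triv O G O) = (A.map (aug O G)).mulVecLin := by
  apply LinearMap.ext
  intro y
  rfl

/-- the cokernel of the augmented matrix -/
noncomputable def cokTrivEquiv {O : Type} [CommRing O] {G : Type} [Group G] {b c : ℕ}
    (A : Matrix (Fin b) (Fin c) (MonoidAlgebra O G)) :
    cok O A (Triv O G O) ≃ₗ[O] ((Fin b → O) ⧸ LinearMap.range ((A.map (aug O G)).mulVecLin)) := by
  refine Submodule.Quotient.equiv _ _ (LinearEquiv.refl O (Fin b → O)) ?_
  rw [← act_triv]
  exact Submodule.map_id _

variable {X Y : Type} [AddCommGroup X] [Module O X] [AddCommGroup Y] [Module O Y]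

/-- **Square presentations.** -/
theorem IsPres.length_ge (hO : ¬ IsField O) (hG : IsPGroup p G) (h : IsPres O G X Y b b)
    (hX : Module.length O X ≠ ⊤) :
    Module.length O Y + ((irr G - 1 : ℕ) : ℕ∞) * (rk O Y : ℕ∞) ≤ Module.length O X := by
  obtain ⟨A, ⟨e⟩, ⟨e'⟩⟩ := h
  rw [LinearEquiv.length_eq e, length_coker_eq] at hX ⊢
  have h1 := length_cok_ge_irr (p := p) hO hG A hX
  have e2 := e'.trans (cokTrivEquiv A).symm
  have h2 : rk O Y = rk O (cok O A (Triv O G O)) :=
    LinearEquiv.finrank_eq (LinearEquiv.baseChange O (ResidueField O) _ _ e2)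
  rw [LinearEquiv.length_eq e2, h2]
  exact h1

end main

end Pool.Agent.Q50.MU
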