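import Pool.Agent.Q50.MU.Act

/-!
# Matrices over the group ring of a finite `p`-group acting on lattices
-/

set_option autoImplicit false
set_option maxHeartbeats 4000000
set_option synthInstance.maxHeartbeats 400000

namespace Pool.Agent.Q50.MU

open Module Matrix TensorProduct IsLocalRing Pool.Agent.Q173.MU

section fixed

/-- A `p`-group which acts on a nonzero vector space over the field with `p` elements has a nonzero fixed vector. -/
lemma exists_fixed_aux {p : ℕ} [hp : Fact p.Prime] {G : Type} [Group G] [Finite G] (hG : IsPGroup p G) {S : Type}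
    [AddCommGroup S] [DistribMulAction G S] [Module (ZMod p) S] [Nontrivial S] :
    ∃ v : S, v ≠ 0 ∧ ∀ g : G, g • v = v := by
  obtain ⟨s, hs⟩ := exists_ne (0 : S)
  let W : Submodule (ZMod p) S := Submodule.span (ZMod p) (Set.range fun g : G => g • s)
  have hWg : ∀ (g : G), ∀ w ∈ W, g • w ∈ W := by
    intro g w hw
    induction hw using Submodule.span_induction with
    | mem x hx =>
      obtain ⟨h, rfl⟩ := hx
      refine Submodule.subset_span ⟨g * h, ?_⟩
      change (g * h) • s = g • h • s
      rw [mul_smul]
    | zero => rw [smul_zero]; exact W.zero_mem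
    | add x y _ _ hx hy => rw [smul_add]; exact W.add_mem hx hy
    | smul a x _ hx =>
      have h1 : g • (a • x) = a • (g • x) := by
        have h2 := ZMod.map_smul (DistribSMul.toAddMonoidHom S g) a x
        exact h2
      rw [h1]
      exact W.smul_mem a hx
  have : Module.Finite (ZMod p) W := Module.Finite.span_of_finite _ (Set.finite_range _)
  have hfin : Finite W := Module.finite_of_finite (ZMod p)
  let act : MulAction G W :=
    { smul := fun g w => ⟨g • (w : S), hWg g w w.2⟩
      one_smul := fun w => Subtype.ext (one_smul G (w : S))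
      mul_smul := fun g h w => Subtype.ext (mul_smul g h (w : S)) }
  have hsW : s ∈ W := Submodule.subset_span ⟨1, one_smul G s⟩
  have hdvd : p ∣ Nat.card W := by
    have h1 : addOrderOf (⟨s, hsW⟩ : W) = p := by
      apply addOrderOf_eq_prime
      · apply Subtype.ext
        change p • s = 0
        rw [← Nat.cast_smul_eq_nsmul (ZMod p), ZMod.natCast_self, zero_smul]
      · intro h
        exact hs (congrArg Subtype.val h)
    have h2 := addOrderOf_dvd_natCard (⟨s, hsW⟩ : W)
    rwa [h1] at h2
  have h0 : (0 : W) ∈ MulAction.fixedPoints G W := fun g => Subtype.ext (smul_zero g)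
  obtain ⟨b, hb, hne⟩ := hG.exists_fixed_point_of_prime_dvd_card_of_fixed_point W hdvd h0
  refine ⟨b, fun h => hne (Subtype.ext h.symm), fun g => congrArg Subtype.val (hb g)⟩

/-- A `p`-group which acts on a nonzero module killed by `p` has a nonzero fixed vector. -/
lemma exists_fixed {p : ℕ} [hp : Fact p.Prime] {G : Type} [Group G] [Finite G] (hG : IsPGroup p G) {S : Type}
    [AddCommGroup S] [DistribMulAction G S] (hS : ∀ s : S, p • s = 0) [Nontrivial S] :
    ∃ v : S, v ≠ 0 ∧ ∀ g : G, g • v = v := by
  let _ : Module (ZMod p) S := AddCommGroup.zmodModule hS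
  exact exists_fixed_aux (p := p) hG

end fixed

section triv

/-- The `O`-module `N` with the trivial action of the group `G`. -/
def Triv (_O _G : Type) (N : Type) : Type := N

variable {O G N : Type} [CommRing O] [Group G] [AddCommGroup N] [Module O N]

instance : AddCommGroup (Triv O G N) := inferInstanceAs (AddCommGroup N)
instance : Module O (Triv O G N) := inferInstanceAs (Module O N)
noncomputable instance trivMod : Module (MonoidAlgebra O G) (Triv O G N) := Module.compHom N (aug O G)

lemma triv_smul (x : MonoidAlgebra O G) (n : Triv O G N) : x • n = aug O G x • n := rfl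

instance : IsScalarTower O (MonoidAlgebra O G) (Triv O G N) where
  smul_assoc o x n := by
    rw [triv_smul, triv_smul, Algebra.smul_def, map_mul, aug_algebraMap, mul_smul]

instance [Module.Finite O N] : Module.Finite O (Triv O G N) := inferInstanceAs (Module.Finite O N)

end triv

/-- The generator of the trivial module. -/
def tOne (O G : Type) [CommRing O] : Triv O G O := (1 : O)

lemma smul_tOne {O G : Type} [CommRing O] (o : O) : (o • tOne O G : Triv O G O) = (o : O) := mul_one o

section lower

variable {O : Type} [CommRing O] [IsLocalRing O] {G : Type} [Group G]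

lemma length_residue_tensor {Y : Type} [AddCommGroup Y] [Module O Y] [Module.Finite O Y] :
    Module.length O (ResidueField O ⊗[O] Y) = rk O Y := by
  have e1 : (ResidueField O ⊗[O] Y) ≃ₗ[ResidueField O] (Fin (rk O Y) → ResidueField O) :=
    (Module.finBasis (ResidueField O) (ResidueField O ⊗[O] Y)).equivFun
  have hsimple : IsSimpleModule O (ResidueField O) := by
    have : IsSimpleModule O (O ⧸ maximalIdeal O) :=
      isSimpleModule_iff_isCoatom.2 (Ideal.isMaximal_def.1 inferInstance)
    exact this
  rw [LinearEquiv.length_eq (e1.restrictScalars O), Module.length_pi, Module.length_eq_one]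
  simp

variable {p : ℕ} [Fact p.Prime] [CharP (ResidueField O) p] [Finite G] {b c : ℕ}

/-- **Lower bound.** Every nonzero module over the group ring of a `p`-group, finitely generated over `O`, has the trivial
module as a quotient. -/
lemma rk_le_length_cok (hG : IsPGroup p G) (A : Matrix (Fin b) (Fin c) (MonoidAlgebra O G)) (M : Type)
    [AddCommGroup M] [Module O M] [Module (MonoidAlgebra O G) M] [IsScalarTower O (MonoidAlgebra O G) M]
    [Module.Finite O M] [Nontrivial M] :
    (rk O (cok O A (Triv O G O)) : ℕ∞) ≤ Module.length O (cok O A M) := by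
  have : Module.Finite (MonoidAlgebra O G) M := Module.Finite.of_restrictScalars_finite O _ M
  obtain ⟨N, hN, -⟩ := (eq_top_or_exists_le_coatom (⊥ : Submodule (MonoidAlgebra O G) M)).resolve_left bot_ne_top
  have hsimple : IsSimpleModule (MonoidAlgebra O G) (M ⧸ N) := isSimpleModule_iff_isCoatom.2 hN
  have hfin : Module.Finite O (M ⧸ N) :=
    Module.Finite.of_surjective (N.mkQ.restrictScalars O) (Submodule.mkQ_surjective N)
  have hnt : Nontrivial (M ⧸ N) := IsSimpleModule.nontrivial (MonoidAlgebra O G) _
  -- the maximal ideal kills the simple quotient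
  have hkill : ∀ o ∈ maximalIdeal O, ∀ s : M ⧸ N, o • s = 0 := by
    intro o ho s
    let f : (M ⧸ N) →ₗ[MonoidAlgebra O G] (M ⧸ N) :=
      { toFun := fun s => o • s
        map_add' := fun a b => smul_add _ _ _
        map_smul' := fun x a => smul_comm _ _ _ }
    rcases LinearMap.bijective_or_eq_zero f with hb | h0
    · exfalso
      have h1 : (⊤ : Submodule O (M ⧸ N)) ≤ maximalIdeal O • ⊤ := by
        intro x _
        obtain ⟨y, hy⟩ := hb.2 x
        rw [← hy]
        exact Submodule.smul_mem_smul ho trivial
      have h2 := Submodule.eq_bot_of_le_smul_of_le_jacobson_bot (maximalIdeal O) (⊤ : Submodule O (M ⧸ N))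
        hfin.fg_top h1 (maximalIdeal_le_jacobson _)
      exact absurd h2 (by
        intro h3
        have h4 : Subsingleton (M ⧸ N) := (Submodule.subsingleton_iff O).1 (subsingleton_of_bot_eq_top h3.symm)
        exact not_subsingleton _ h4)
    · exact LinearMap.congr_fun h0 s
  have hp0 : (p : O) ∈ maximalIdeal O := by
    rw [← residue_eq_zero_iff, map_natCast, CharP.cast_eq_zero]
  let _ : DistribMulAction G (M ⧸ N) := DistribMulAction.compHom (M ⧸ N) (MonoidAlgebra.of O G)
  obtain ⟨v, hv0, hv⟩ := exists_fixed (p := p) hG (S := M ⧸ N) (by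
    intro s
    rw [← Nat.cast_smul_eq_nsmul O]
    exact hkill _ hp0 s)
  -- the action on the fixed vector
  have hact : ∀ x : MonoidAlgebra O G, x • v = aug O G x • v := by
    intro x
    induction x using MonoidAlgebra.induction with
    | zero => rw [zero_smul, map_zero, zero_smul]
    | single_add g a x _ _ ih =>
      rw [add_smul, ih, map_add, add_smul, aug_single]
      congr 1
      have h1 : (MonoidAlgebra.single g a : MonoidAlgebra O G) = a • MonoidAlgebra.of O G g := by
        rw [MonoidAlgebra.of_apply, MonoidAlgebra.smul_single, smul_eq_mul, mul_one]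
      rw [h1, smul_assoc]
      congr 1
      exact hv g
  have hspan : ∀ s : M ⧸ N, ∃ o : O, o • v = s := by
    intro s
    have h1 : Submodule.span (MonoidAlgebra O G) {v} = ⊤ := by
      rcases IsSimpleOrder.eq_bot_or_eq_top (Submodule.span (MonoidAlgebra O G) {v}) with h | h
      · exact absurd (Submodule.span_singleton_eq_bot.1 h) hv0
      · exact h
    have h2 : s ∈ Submodule.span (MonoidAlgebra O G) {v} := by rw [h1]; trivial
    obtain ⟨x, rfl⟩ := Submodule.mem_span_singleton.1 h2
    exact ⟨aug O G x, (hact x).symm⟩
  -- the cokernel of the simple quotient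
  let φ : Triv O G O →ₗ[MonoidAlgebra O G] (M ⧸ N) :=
    { toFun := fun o => (show O from o) • v
      map_add' := fun a b => add_smul (R := O) _ _ v
      map_smul' := fun x a => by
        change (aug O G x * (show O from a)) • v = x • ((show O from a) • v)
        rw [mul_comm, mul_smul, ← hact]
        exact smul_comm _ _ _ }
  have hφ : ∀ o : O, φ o = o • v := fun o => rfl
  have hφsurj : Function.Surjective φ := fun s => by
    obtain ⟨o, ho⟩ := hspan s
    exact ⟨o, ho⟩
  have hker : ∀ o : O, φ o = 0 → o ∈ maximalIdeal O := by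
    intro o ho
    by_contra hne
    have h1 : IsUnit o := by
      by_contra h2
      exact hne ((mem_maximalIdeal o).2 h2)
    exact hv0 ((IsUnit.smul_eq_zero h1).1 ho)
  set Y := cok O A (Triv O G O) with hY
  have hφs : Function.Surjective (powMap O φ b) := powMap_surjective φ hφsurj
  set mk : Y →ₗ[O] (ResidueField O ⊗[O] Y) := TensorProduct.mk O (ResidueField O) Y 1 with hmk
  set ψ : (Fin b → Triv O G O) →ₗ[O] (ResidueField O ⊗[O] Y) :=
    mk ∘ₗ (LinearMap.range (act (O := O) A (Triv O G O))).mkQ with hψ
  have hmkz : ∀ (o : O) (y : Y), o ∈ maximalIdeal O → mk (o • y) = 0 := by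
    intro o y ho
    rw [hmk, map_smul, TensorProduct.mk_apply, TensorProduct.smul_tmul']
    have h3 : o • (1 : ResidueField O) = 0 := by
      rw [Algebra.smul_def, mul_one]
      exact (residue_eq_zero_iff _).2 ho
    rw [h3, TensorProduct.zero_tmul]
  have hψker : LinearMap.ker (powMap O φ b) ≤ LinearMap.ker ψ := by
    intro x hx
    rw [LinearMap.mem_ker] at hx ⊢
    let xo : Fin b → O := x
    have h1 : ∀ i, xo i ∈ maximalIdeal O := fun i => hker _ (congrFun hx i)
    let e : Fin b → (Fin b → Triv O G O) := fun i => Pi.single i (tOne O G)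
    have h2 : x = ∑ i, xo i • e i := by
      funext j
      rw [Finset.sum_apply, Finset.sum_eq_single j]
      · change x j = xo j • (Pi.single j (tOne O G) : Fin b → Triv O G O) j
        rw [Pi.single_eq_same]
        exact (smul_tOne (xo j)).symm
      · intro i _ hij
        change xo i • (Pi.single i (tOne O G) : Fin b → Triv O G O) j = 0
        rw [Pi.single_eq_of_ne (Ne.symm hij), smul_zero]
      · intro h
        exact absurd (Finset.mem_univ j) h
    rw [h2, map_sum]
    refine Finset.sum_eq_zero fun i _ => ?_
    have h3 : ψ (xo i • e i) = mk (xo i • (LinearMap.range (act (O := O) A (Triv O G O))).mkQ (e i)) := by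
      rw [← map_smul]
      rfl
    rw [h3]
    exact hmkz _ _ (h1 i)
  -- the induced map on the powers of the simple module
  set χ : (Fin b → M ⧸ N) →ₗ[O] (ResidueField O ⊗[O] Y) :=
    ((LinearMap.ker (powMap O φ b)).liftQ ψ hψker) ∘ₗ
      ((powMap O φ b).quotKerEquivOfSurjective hφs).symm.toLinearMap with hχ
  have hχφ : ∀ x, χ (powMap O φ b x) = ψ x := by
    intro x
    have h1 : ((powMap O φ b).quotKerEquivOfSurjective hφs).symm (powMap O φ b x) = Submodule.Quotient.mk x := by
      rw [LinearEquiv.symm_apply_eq]
      rfl
    change ((LinearMap.ker (powMap O φ b)).liftQ ψ hψker)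
      (((powMap O φ b).quotKerEquivOfSurjective hφs).symm (powMap O φ b x)) = _
    rw [h1]
    rfl
  have hmks : Function.Surjective mk := by
    intro t
    induction t with
    | zero => exact ⟨0, map_zero _⟩
    | tmul a x =>
      obtain ⟨a, rfl⟩ := residue_surjective a
      refine ⟨a • x, ?_⟩
      rw [map_smul, hmk, TensorProduct.mk_apply, TensorProduct.smul_tmul']
      congr 1
      rw [Algebra.smul_def, mul_one]
      rfl
    | add s t hs ht =>
      obtain ⟨x, rfl⟩ := hs
      obtain ⟨y, rfl⟩ := ht
      exact ⟨x + y, map_add _ _ _⟩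
  have hψs : Function.Surjective ψ := by
    intro t
    obtain ⟨y, rfl⟩ := hmks t
    obtain ⟨x, rfl⟩ := Submodule.mkQ_surjective _ y
    exact ⟨x, rfl⟩
  have hχs : Function.Surjective χ := by
    intro t
    obtain ⟨x, rfl⟩ := hψs t
    exact ⟨powMap O φ b x, hχφ x⟩
  have hχr : LinearMap.range (act (O := O) A (M ⧸ N)) ≤ LinearMap.ker χ := by
    rintro _ ⟨y, rfl⟩
    rw [LinearMap.mem_ker]
    obtain ⟨z, rfl⟩ := powMap_surjective (O := O) φ hφsurj y
    rw [← powMap_act, hχφ]
    have h2 : (LinearMap.range (act (O := O) A (Triv O G O))).mkQ (act (O := O) A (Triv O G O) z) = 0 :=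
      (Submodule.Quotient.mk_eq_zero _).2 ⟨_, rfl⟩
    change mk ((LinearMap.range (act (O := O) A (Triv O G O))).mkQ (act (O := O) A (Triv O G O) z)) = 0
    rw [h2, map_zero]
  have hYfin : Module.Finite O Y := Module.Finite.of_surjective _ (Submodule.mkQ_surjective _)
  have h1 : Module.length O (ResidueField O ⊗[O] Y) ≤ Module.length O (cok O A (M ⧸ N)) := by
    refine Module.length_le_of_surjective ((LinearMap.range (act (O := O) A (M ⧸ N))).liftQ χ hχr) ?_
    intro t
    obtain ⟨x, rfl⟩ := hχs t
    exact ⟨Submodule.Quotient.mk x, rfl⟩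
  rw [length_residue_tensor] at h1
  exact h1.trans (Module.length_le_of_surjective _ (cokMap_surjective A N.mkQ (Submodule.mkQ_surjective N)))

end lower

end Pool.Agent.Q50.MU
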